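import Pool.Agent.Helper84.P13.StD1

/-!
# W7 MODULE Lw1: first terms of `op13`
-/

set_option autoImplicit false

namespace Pool.Agent.Helper84.P13

open Pool.Agent.Helper84.P13

/-! ### Identities in a ring -/

private theorem ring1 {R : Type*} [Ring R] (A B X Y : R) :
    B * A - 1 - X - Y = (B - 1 - Y) * A + ((1 + Y) * (A - 1 - X) + Y * X) := by
  noncomm_ring

private theorem ring2 {R : Type*} [Ring R] (A B D X Y : R) :
    B * D * A - 1 - X - Y = B * (D - 1) * A + (B * A - 1 - X - Y) := by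
  noncomm_ring

private theorem ring3 {R : Type*} [Ring R] (A O X : R) :
    A * (1 + O) - 1 - (X + O) = (A - 1 - X) * (1 + O) + X * O := by
  noncomm_ring

/-! ### Arithmetic -/

private theorem ex_b (a b : ℤ) (h : ¬ 13 ∣ a) : ∃ β : ℕ, (169 : ℤ) ∣ b - β * a := by
  have h5 : Prime (13 : ℤ) := Nat.prime_iff_prime_int.mp (by norm_num)
  have h1 : IsCoprime (13 : ℤ) a := (h5.irreducible.coprime_iff_not_dvd).2 h
  have h2 : IsCoprime ((13 : ℤ) ^ 2) a := h1.pow_left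
  obtain ⟨u, v, huv⟩ := h2
  have h0 : 0 ≤ (b * v) % 169 := Int.emod_nonneg _ (by norm_num)
  refine ⟨((b * v) % 169).toNat, ?_⟩
  rw [Int.toNat_of_nonneg h0]
  have h4 : (b * v) % 169 = b * v - 169 * (b * v / 169) := by
    have := Int.emod_add_mul_ediv (b * v) 169
    linarith
  rw [h4]
  refine ⟨b * u + (b * v / 169) * a, ?_⟩
  linear_combination b * (-huv)

private theorem eight (m : ℕ) : (169 : ℤ) ∣ 14 ^ m - 1 - 13 * m := by
  induction m with
  | zero => simp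
  | succ m ih =>
    obtain ⟨k, hk⟩ := ih
    refine ⟨14 * k + m, ?_⟩
    rw [pow_succ]
    push_cast
    linear_combination 14 * hk

private theorem ex_m (e h d : ℤ) (he : ¬ 13 ∣ e) (hd : 13 ∣ d - e) :
    ∃ m : ℕ, (169 : ℤ) ∣ d - 13 * h - 14 ^ m * e := by
  obtain ⟨t, ht⟩ := hd
  obtain ⟨m, k, hk⟩ := ex_b e (t - h) he
  obtain ⟨l, hl⟩ := eight m
  refine ⟨m, 13 * k - l * e, ?_⟩
  linear_combination ht + 13 * hk - e * hl

private theorem ex_w (a d : ℤ) (ha : ¬ 13 ∣ a) (hd : ¬ 13 ∣ d) :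
    ∃ w : Fin 12, (13 : ℤ) ∣ d - om12 w * a := by
  have key : ∀ x y : ZMod 13, x ≠ 0 → y ≠ 0 → ∃ w : Fin 12, y = ((om12 w : ℤ) : ZMod 13) * x := by
    decide
  have hc : ∀ t : ℤ, (t : ZMod 13) = 0 ↔ (13 : ℤ) ∣ t := by
    intro t
    rw [ZMod.intCast_zmod_eq_zero_iff_dvd]
    exact Iff.rfl
  obtain ⟨w, hw⟩ := key (a : ZMod 13) (d : ZMod 13) (fun h => ha ((hc a).1 h)) (fun h => hd ((hc d).1 h))
  refine ⟨w, (hc _).1 ?_⟩
  rw [Int.cast_sub, Int.cast_mul, hw, sub_self]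

section

variable {r s : ℕ}

private theorem neg1_smul (O : Module.End (ZMod 13) (Fn13 (13 ^ r) (13 ^ s))) :
    (-1 : ZMod 13) • O = -O := by
  apply LinearMap.ext
  intro F
  funext x y
  change (-1 : ZMod 13) * (O F x y) = -(O F x y)
  ring

private theorem lw_neg (hL : S13Low0) {O : Module.End (ZMod 13) (Fn13 (13 ^ r) (13 ^ s))} {k : ℤ}
    (h : Lw O k) : Lw (-O) k := by
  have := (hL r s).2.2.1 O (-1) k h
  rwa [neg1_smul] at this

private theorem lw_add (hL : S13Low0) {O O' : Module.End (ZMod 13) (Fn13 (13 ^ r) (13 ^ s))} {k : ℤ}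
    (h : Lw O k) (h' : Lw O' k) : Lw (O + O') k := (hL r s).2.1 O O' k h h'

private theorem lw_mul (hL : S13Low0) {O O' : Module.End (ZMod 13) (Fn13 (13 ^ r) (13 ^ s))}
    {k k' l : ℤ} (h : Lw O k) (h' : Lw O' k') (hl : k + k' = l) : Lw (O * O') l := by
  subst hl
  exact (hL r s).1 O O' k k' h h'

private theorem lw_mono (hL : S13Low0) {O : Module.End (ZMod 13) (Fn13 (13 ^ r) (13 ^ s))}
    {k k' : ℤ} (h : Lw O k) (hk : k' ≤ k) : Lw O k' := (hL r s).2.2.2.1 O k k' hk h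

private theorem lw_smul (hL : S13Low0) {O : Module.End (ZMod 13) (Fn13 (13 ^ r) (13 ^ s))} {k : ℤ}
    (c : ZMod 13) (h : Lw O k) : Lw (c • O) k := (hL r s).2.2.1 O c k h

private theorem lw_one (hL : S13Low0) :
    Lw (1 : Module.End (ZMod 13) (Fn13 (13 ^ r) (13 ^ s))) 0 := (hL r s).2.2.2.2.2.1

private theorem lw_dX (hL : S13Low0) :
    Lw (dX : Module.End (ZMod 13) (Fn13 (13 ^ r) (13 ^ s))) 1 := (hL r s).2.2.2.2.2.2.1

private theorem lw_dY (hL : S13Low0) :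
    Lw (dY : Module.End (ZMod 13) (Fn13 (13 ^ r) (13 ^ s))) 1 := (hL r s).2.2.2.2.2.2.2.1

private theorem lw_pow (hL : S13Low0) {O : Module.End (ZMod 13) (Fn13 (13 ^ r) (13 ^ s))}
    (h : Lw O 0) (n : ℕ) : Lw (O ^ n) 0 := by
  induction n with
  | zero => rw [pow_zero]; exact lw_one hL
  | succ n ih => rw [pow_succ]; exact lw_mul hL ih h (by norm_num)

private theorem lw_one_add (hL : S13Low0) {O : Module.End (ZMod 13) (Fn13 (13 ^ r) (13 ^ s))}
    (h : Lw O 1) : Lw (1 + O) 0 := lw_add hL (lw_one hL) (lw_mono hL h (by norm_num))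

/-- `(1 + O)^n = 1 + n O` up to lowering `2`. -/
private theorem lw_binom (hL : S13Low0) {O : Module.End (ZMod 13) (Fn13 (13 ^ r) (13 ^ s))}
    (h : Lw O 1) (n : ℕ) : Lw ((1 + O) ^ n - 1 - (n : ZMod 13) • O) 2 := by
  induction n with
  | zero =>
    have e : (1 + O) ^ 0 - 1 - ((0 : ℕ) : ZMod 13) • O = 0 := by
      rw [pow_zero, Nat.cast_zero, zero_smul, sub_self, sub_zero]
    rw [e]
    have := lw_smul hL (0 : ZMod 13) (lw_mul hL h h (by norm_num : (1 : ℤ) + 1 = 2))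
    rwa [zero_smul] at this
  | succ n ih =>
    have e : ((n + 1 : ℕ) : ZMod 13) • O = (n : ZMod 13) • O + O := by
      rw [Nat.cast_add, Nat.cast_one, add_smul, one_smul]
    rw [pow_succ, e, ring3]
    exact lw_add hL (lw_mul hL ih (lw_one_add hL h) (by norm_num))
      (lw_mul hL (lw_smul hL _ h) h (by norm_num))

/-- Powers of an operator which is `1` up to lowering `k ≥ 0`. -/
private theorem lw_powk (hL : S13Low0) {O : Module.End (ZMod 13) (Fn13 (13 ^ r) (13 ^ s))} {k : ℤ}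
    (hk : 0 ≤ k) (h : Lw (O - 1) k) (n : ℕ) : Lw (O ^ n - 1) k ∧ Lw (O ^ n) 0 := by
  have h0 : Lw O 0 := by
    have := lw_add hL (lw_mono hL h hk) (lw_one hL)
    rwa [sub_add_cancel] at this
  refine ⟨?_, lw_pow hL h0 n⟩
  induction n with
  | zero =>
    rw [pow_zero, sub_self]
    have := lw_smul hL (0 : ZMod 13) h
    rwa [zero_smul] at this
  | succ n ih =>
    have e : O ^ (n + 1) - 1 = (O ^ n - 1) * O + (O - 1) := by
      rw [pow_succ, sub_mul, one_mul, sub_add_sub_cancel]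
    rw [e]
    exact lw_add hL (lw_mul hL ih h0 (by norm_num)) h

/-- `O^n = 1 + n X` up to lowering `2`, if `O = 1 + X` up to lowering `11`. -/
private theorem lw_first (hL : S13Low0) {O X : Module.End (ZMod 13) (Fn13 (13 ^ r) (13 ^ s))}
    (h1 : Lw (O - 1) 1) (h5 : Lw (O - 1 - X) 11) (n : ℕ) :
    Lw (O ^ n - 1 - (n : ZMod 13) • X) 2 := by
  have b1 := lw_binom hL h1 n
  have eB : (1 + (O - 1) : Module.End (ZMod 13) (Fn13 (13 ^ r) (13 ^ s))) = O := by abel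
  rw [eB] at b1
  have b2 := lw_smul hL (n : ZMod 13) (lw_mono hL h5 (by norm_num : (2 : ℤ) ≤ 11))
  have e : O ^ n - 1 - (n : ZMod 13) • X =
      (O ^ n - 1 - (n : ZMod 13) • (O - 1)) + (n : ZMod 13) • (O - 1 - X) := by
    rw [smul_sub (n : ZMod 13) (O - 1) X]
    abel
  rw [e]
  exact lw_add hL b1 b2

/-- The main step. -/
private theorem step2 (hL : S13Low0) (hn : S13Nfa) (hf : S13Nf) (a b c d : ℤ) (ha : ¬ 13 ∣ a)
    (hd : ¬ 13 ∣ d) (w : Fin 12) (hw : 13 ∣ d - om12 w * a) :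
    Lw (op13 a b c d - oW w * (1 + ((b * a ^ 11 : ℤ) : ZMod 13) • dX +
      ((c * a ^ 11 * om12 w ^ 11 : ℤ) : ZMod 13) • dY) :
      Module.End (ZMod 13) (Fn13 (13 ^ r) (13 ^ s))) 2 := by
  have he : ¬ 13 ∣ om12 w * a := by
    intro h
    apply hd
    have := dvd_add hw h
    rwa [sub_add_cancel] at this
  obtain ⟨β, hβ⟩ := ex_b a b ha
  obtain ⟨γ, hγ⟩ := ex_b (om12 w * a) c he
  obtain ⟨m, hm⟩ := ex_m (om12 w * a) (γ * β * (om12 w * a)) d he hw
  have h7 := hf r s a b c d w β γ m ha hd hβ (by rw [mul_assoc]; exact hγ) (by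
    have e : d - (13 * (γ : ℤ) * β + 14 ^ m) * om12 w * a =
        d - 13 * ((γ : ℤ) * β * (om12 w * a)) - 14 ^ m * (om12 w * a) := by ring
    rw [e]
    exact hm)
  obtain ⟨nW, -, -, -, -, nD, nA5, nB5, nA, nB⟩ := hn r s
  -- the coefficients
  have hsix : ∀ t : ZMod 13, t ≠ 0 → t ^ 12 = 1 := by decide
  have hcast : ∀ t : ℤ, (t : ZMod 13) = 0 ↔ (13 : ℤ) ∣ t := by
    intro t
    rw [ZMod.intCast_zmod_eq_zero_iff_dvd]
    exact Iff.rfl
  have h49 : ∀ t : ℤ, (169 : ℤ) ∣ t → (t : ZMod 13) = 0 := by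
    intro t ht
    rw [hcast]
    exact dvd_trans ⟨13, by norm_num⟩ ht
  have hβ' : ((b * a ^ 11 : ℤ) : ZMod 13) = (β : ZMod 13) := by
    have h1 := h49 _ hβ
    push_cast at h1 ⊢
    have h2 := hsix (a : ZMod 13) (fun h => ha ((hcast a).1 h))
    linear_combination (a : ZMod 13) ^ 11 * h1 + (β : ZMod 13) * h2
  have hγ' : ((c * a ^ 11 * om12 w ^ 11 : ℤ) : ZMod 13) = (γ : ZMod 13) := by
    have h1 := h49 _ hγ
    have h2 := hsix ((om12 w * a : ℤ) : ZMod 13) (fun h => he ((hcast _).1 h))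
    push_cast at h1 h2 ⊢
    linear_combination (a : ZMod 13) ^ 11 * ((om12 w : ℤ) : ZMod 13) ^ 11 * h1 + (γ : ZMod 13) * h2
  rw [hβ', hγ']
  obtain ⟨bD, -⟩ := lw_powk hL (by norm_num) nD m
  obtain ⟨-, cB⟩ := lw_powk hL (by norm_num) nB γ
  obtain ⟨-, cA⟩ := lw_powk hL (by norm_num) nA β
  have hB := lw_first hL nB nB5 γ
  have hA := lw_first hL nA nA5 β
  have hX := lw_smul hL (β : ZMod 13) (lw_dX (r := r) (s := s) hL)
  have hY := lw_smul hL (γ : ZMod 13) (lw_dY (r := r) (s := s) hL)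
  have hR : Lw (oB ^ γ * oD ^ m * oA ^ β - 1 - (β : ZMod 13) • dX - (γ : ZMod 13) • dY :
      Module.End (ZMod 13) (Fn13 (13 ^ r) (13 ^ s))) 2 := by
    rw [ring2]
    refine lw_add hL ?_ ?_
    · exact lw_mono hL (lw_mul hL (lw_mul hL cB bD (by norm_num : (0 : ℤ) + 12 = 12)) cA
        (by norm_num : (12 : ℤ) + 0 = 12)) (by norm_num)
    · rw [ring1]
      refine lw_add hL (lw_mul hL hB cA (by norm_num)) (lw_add hL ?_ ?_)
      · exact lw_mul hL (lw_one_add hL hY) hA (by norm_num)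
      · exact lw_mul hL hY hX (by norm_num)
  have e : (op13 a b c d - oW w * (1 + (β : ZMod 13) • dX + (γ : ZMod 13) • dY) :
      Module.End (ZMod 13) (Fn13 (13 ^ r) (13 ^ s))) =
      (op13 a b c d - oW w * oB ^ γ * oD ^ m * oA ^ β) +
        oW w * (oB ^ γ * oD ^ m * oA ^ β - 1 - (β : ZMod 13) • dX - (γ : ZMod 13) • dY) := by
    simp only [mul_assoc, mul_sub, mul_add]
    abel
  rw [e]
  exact lw_add hL (lw_mono hL h7 (by norm_num)) (lw_mul hL (nW w) hR (by norm_num))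

private theorem step1 (hL : S13Low0) (hn : S13Nfa) (hf : S13Nf) (a b c d : ℤ) (ha : ¬ 13 ∣ a)
    (hd : ¬ 13 ∣ d) (w : Fin 12) (hw : 13 ∣ d - om12 w * a) :
    Lw (op13 a b c d - oW w : Module.End (ZMod 13) (Fn13 (13 ^ r) (13 ^ s))) 1 := by
  have h2 := step2 (r := r) (s := s) hL hn hf a b c d ha hd w hw
  obtain ⟨nW, -⟩ := hn r s
  have h3 : Lw (oW w * (((b * a ^ 11 : ℤ) : ZMod 13) • dX +
      ((c * a ^ 11 * om12 w ^ 11 : ℤ) : ZMod 13) • dY) :
      Module.End (ZMod 13) (Fn13 (13 ^ r) (13 ^ s))) 1 :=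
    lw_mul hL (nW w) (lw_add hL (lw_smul hL _ (lw_dX hL)) (lw_smul hL _ (lw_dY hL)))
      (by norm_num)
  have e : (op13 a b c d - oW w : Module.End (ZMod 13) (Fn13 (13 ^ r) (13 ^ s))) =
      (op13 a b c d - oW w * (1 + ((b * a ^ 11 : ℤ) : ZMod 13) • dX +
      ((c * a ^ 11 * om12 w ^ 11 : ℤ) : ZMod 13) • dY)) +
      oW w * (((b * a ^ 11 : ℤ) : ZMod 13) • dX +
      ((c * a ^ 11 * om12 w ^ 11 : ℤ) : ZMod 13) • dY) := by
    simp only [mul_add, mul_one]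
    abel
  rw [e]
  exact lw_add hL (lw_mono hL h2 (by norm_num)) h3

end

/-- LW1. -/
theorem hLw1 (hl : S13Low0) (hn : S13Nfa) (hf : S13Nf) : S13Lw1 := by
  intro r s a b c d ha hd
  refine ⟨?_, fun w hw => ⟨step1 hl hn hf a b c d ha hd w hw,
    step2 hl hn hf a b c d ha hd w hw⟩⟩
  obtain ⟨w, hw⟩ := ex_w a d ha hd
  have h1 := step1 (r := r) (s := s) hl hn hf a b c d ha hd w hw
  have h2 := lw_add hl (lw_mono hl h1 (by norm_num : (0 : ℤ) ≤ 1)) ((hn r s).1 w)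
  rwa [sub_add_cancel] at h2

end Pool.Agent.Helper84.P13
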