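import Pool.Agent.Helper84.P13.StD1

/-!
# Project W7, module NF: normal form of the operator of a matrix
-/

set_option autoImplicit false

namespace Pool.Agent.Helper84.P13

open Pool.Agent.Helper84.P13

namespace Nf

/-- Compatible with all congruences modulo `13^i`. -/
private def Lip {q : ℕ} (t : ZMod q → ZMod q) : Prop :=
  ∀ (i : ℕ) (y y' : ZMod q), (13 : ZMod q) ^ i ∣ y - y' → (13 : ZMod q) ^ i ∣ t y - t y'

private theorem Lip.const {q : ℕ} (c : ZMod q) : Lip (fun _ : ZMod q => c) := by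
  intro i y y' _
  rw [sub_self]
  exact dvd_zero _

private theorem Lip.idm {q : ℕ} : Lip (fun y : ZMod q => y) := fun _ _ _ h => h

private theorem Lip.add {q : ℕ} {t u : ZMod q → ZMod q} (ht : Lip t) (hu : Lip u) :
    Lip (fun y => t y + u y) := by
  intro i y y' h
  have e : t y + u y - (t y' + u y') = (t y - t y') + (u y - u y') := by ring
  rw [e]
  exact dvd_add (ht i y y' h) (hu i y y' h)

private theorem Lip.mul {q : ℕ} {t u : ZMod q → ZMod q} (ht : Lip t) (hu : Lip u) :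
    Lip (fun y => t y * u y) := by
  intro i y y' h
  have e : t y * u y - t y' * u y' = (t y - t y') * u y + t y' * (u y - u y') := by ring
  rw [e]
  exact dvd_add ((ht i y y' h).mul_right _) ((hu i y y' h).mul_left _)

private theorem Lip.inv {q : ℕ} {t : ZMod q → ZMod q} (ht : Lip t) (h1 : ∀ y, t y * (t y)⁻¹ = 1) :
    Lip (fun y => (t y)⁻¹) := by
  intro i y y' h
  have e : (t y)⁻¹ - (t y')⁻¹ = (t y - t y') * (-((t y)⁻¹ * (t y')⁻¹)) := by
    linear_combination (-(t y)⁻¹) * (h1 y') + (t y')⁻¹ * (h1 y)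
  rw [e]
  exact (ht i y y' h).mul_right _

/-- `a + 13 z` is a unit for `a` prime to `13`. -/
private theorem unitA (n : ℕ) (a : ℤ) (ha : ¬ 13 ∣ a) (z : ZMod (13 ^ n)) :
    IsUnit ((a : ZMod (13 ^ n)) + 13 * z) := by
  have h5 : (13 : ZMod (13 ^ n)) ^ n = 0 := by
    have h1 := ZMod.natCast_self (13 ^ n)
    rwa [Nat.cast_pow, Nat.cast_ofNat] at h1
  have hn : IsNilpotent (13 * z : ZMod (13 ^ n)) := ⟨n, by rw [mul_pow, h5, zero_mul]⟩
  have hu : IsUnit (a : ZMod (13 ^ n)) := by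
    rw [ZMod.coe_int_isUnit_iff_isCoprime]
    have h6 : IsCoprime (13 : ℤ) a := by
      rw [Prime.coprime_iff_not_dvd (by norm_num)]
      exact ha
    have h7 := IsCoprime.pow_left (m := n) h6
    exact_mod_cast h7
  rw [add_comm]
  exact (hn.isUnit_add_right_of_commute hu (Commute.all _ _))

private theorem invA (n : ℕ) (a : ℤ) (ha : ¬ 13 ∣ a) (c x : ZMod (13 ^ n)) :
    ((a : ZMod (13 ^ n)) + 13 * c * x) * ((a : ZMod (13 ^ n)) + 13 * c * x)⁻¹ = 1 := by
  have e : (a : ZMod (13 ^ n)) + 13 * c * x = (a : ZMod (13 ^ n)) + 13 * (c * x) := by ring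
  rw [e]
  exact ZMod.mul_inv_of_unit _ (unitA n a ha _)

private theorem frac {R : Type} [CommRing R] {p v a w : R} (e1 : v * a = 1) (e2 : p = w * v) :
    p * a = w := by
  linear_combination a * e2 + w * e1

section main

variable {r s : ℕ}

/-- abbreviation for the operators -/
private abbrev En (r s : ℕ) : Type := Module.End (ZMod 13) (Fn13 (13 ^ r) (13 ^ s))

/-- The rules of LOW0 which are used. -/
private structure Rules (r s : ℕ) : Prop where
  mul : ∀ (O O' : En r s) (k k' : ℤ), Lw O k → Lw O' k' → Lw (O * O') (k + k')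
  add : ∀ (O O' : En r s) (k : ℤ), Lw O k → Lw O' k → Lw (O + O') k
  le : ∀ (O : En r s) (k k' : ℤ), k' ≤ k → Lw O k → Lw O k'
  mono : ∀ d d' : ℤ, d ≤ d' → (Wd13 d : Submodule (ZMod 13) (Fn13 (13 ^ r) (13 ^ s))) ≤ Wd13 d'
  one : Lw (1 : En r s) 0

private theorem rules (h : S13Low0) (r s : ℕ) : Rules r s := by
  obtain ⟨h1, h2, _, h4, h5, h6, _⟩ := h r s
  exact ⟨h1, h2, h4, h5, h6⟩

private theorem Rules.pow (R : Rules r s) {O : En r s} (h : Lw O 0) (n : ℕ) : Lw (O ^ n) 0 := by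
  induction n with
  | zero =>
    rw [pow_zero]
    exact R.one
  | succ n ih =>
    rw [pow_succ]
    have := R.mul _ _ _ _ ih h
    rwa [add_zero] at this

private theorem Rules.of_sub_one (R : Rules r s) {O : En r s} {k : ℤ} (hk : 0 ≤ k)
    (h : Lw (O - 1) k) : Lw O 0 := by
  have h1 := R.add _ _ _ (R.le _ _ 0 hk h) R.one
  rwa [sub_add_cancel] at h1

private theorem om_ne (w : Fin 12) : ¬ 13 ∣ om12 w := by
  fin_cases w <;> decide

private theorem pow6 (m : ℕ) : ∃ k : ℤ, (14 : ℤ) ^ m = 1 + 13 * k := by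
  induction m with
  | zero => exact ⟨0, by norm_num⟩
  | succ m ih =>
    obtain ⟨k, hk⟩ := ih
    exact ⟨14 * k + 1, by rw [pow_succ, hk]; ring⟩

/-- The composition law for operators. -/
private theorem op_mul (hm : S13Trm) {a b c d a' b' c' d' : ℤ} (ha : ¬ 13 ∣ a) (hd : ¬ 13 ∣ d)
    (ha' : ¬ 13 ∣ a') (hd' : ¬ 13 ∣ d') :
    (op13 a b c d * op13 a' b' c' d' : En r s) =
      op13 (a * a' + 13 * b * c') (a * b' + b * d') (c * a' + d * c') (13 * c * b' + d * d') :=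
  LinearMap.ext fun F => (hm (ZMod 13) r s F).1 a b c d a' b' c' d' ha hd ha' hd'

private theorem op_one (hm : S13Trm) : (op13 1 0 0 1 : En r s) = 1 :=
  LinearMap.ext fun F => (hm (ZMod 13) r s F).2.1

private theorem op_scale (hm : S13Trm) {k a b c d : ℤ} (hk : ¬ 13 ∣ k) (ha : ¬ 13 ∣ a)
    (hd : ¬ 13 ∣ d) : (op13 (k * a) (k * b) (k * c) (k * d) : En r s) = op13 a b c d :=
  LinearMap.ext fun F => (hm (ZMod 13) r s F).2.2 k a b c d hk ha hd

private theorem n1 : ¬ (13 : ℤ) ∣ 1 := by decide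

private theorem ndvd_mul {a b : ℤ} (ha : ¬ 13 ∣ a) (hb : ¬ 13 ∣ b) : ¬ (13 : ℤ) ∣ a * b := by
  intro h
  rcases (Int.prime_iff_natAbs_prime.2 (by norm_num : Nat.Prime (13 : ℤ).natAbs)).dvd_or_dvd h with
    h | h
  · exact ha h
  · exact hb h

private theorem n6 (m : ℕ) : ¬ (13 : ℤ) ∣ 14 ^ m := by
  obtain ⟨k, hk⟩ := pow6 m
  rw [hk]
  omega

private theorem oA_pow (hm : S13Trm) (β : ℕ) : (oA ^ β : En r s) = op13 1 β 0 1 := by
  induction β with
  | zero => rw [pow_zero, Nat.cast_zero, op_one hm]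
  | succ n ih =>
    rw [pow_succ, ih]
    change (op13 1 (n : ℤ) 0 1 * op13 1 1 0 1 : En r s) = _
    rw [op_mul hm n1 n1 n1 n1]
    congr 1
    · push_cast; ring

private theorem oB_pow (hm : S13Trm) (γ : ℕ) : (oB ^ γ : En r s) = op13 1 0 γ 1 := by
  induction γ with
  | zero => rw [pow_zero, Nat.cast_zero, op_one hm]
  | succ n ih =>
    rw [pow_succ, ih]
    change (op13 1 0 (n : ℤ) 1 * op13 1 0 1 1 : En r s) = _
    rw [op_mul hm n1 n1 n1 n1]
    congr 1
    · push_cast; ring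

private theorem oD_pow (hm : S13Trm) (m : ℕ) : (oD ^ m : En r s) = op13 1 0 0 (14 ^ m) := by
  induction m with
  | zero => rw [pow_zero, pow_zero, op_one hm]
  | succ n ih =>
    rw [pow_succ, ih]
    change (op13 1 0 0 (14 ^ n) * op13 1 0 0 14 : En r s) = _
    rw [op_mul hm n1 (n6 n) n1 (by decide)]
    congr 1
    · rw [pow_succ]; ring

/-- The normal form as the operator of one matrix. -/
private theorem nf_eq (hm : S13Trm) (w : Fin 12) (β γ m : ℕ) :
    (oW w * oB ^ γ * oD ^ m * oA ^ β : En r s) =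
      op13 1 β (om12 w * γ) (om12 w * (13 * γ * β + 14 ^ m)) := by
  rw [oB_pow hm, oD_pow hm, oA_pow hm]
  change (op13 1 0 0 (om12 w) * op13 1 0 γ 1 * op13 1 0 0 (14 ^ m) * op13 1 β 0 1 : En r s) = _
  rw [op_mul hm n1 (om_ne w) n1 n1]
  have e1 : (op13 (1 * 1 + 13 * 0 * (γ : ℤ)) (1 * 0 + 0 * 1) (0 * 1 + om12 w * γ)
      (13 * 0 * 0 + om12 w * 1) : En r s) = op13 1 0 (om12 w * γ) (om12 w) := by
    congr 1 <;> ring
  rw [e1, op_mul hm n1 (om_ne w) n1 (n6 m)]
  have e2 : (op13 (1 * 1 + 13 * 0 * 0) (1 * 0 + 0 * 14 ^ m) (om12 w * γ * 1 + om12 w * 0)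
      (13 * (om12 w * γ) * 0 + om12 w * 14 ^ m) : En r s) = op13 1 0 (om12 w * γ) (om12 w * 14 ^ m) := by
    congr 1 <;> ring
  rw [e2, op_mul hm n1 (ndvd_mul (om_ne w) (n6 m)) n1 n1]
  congr 1 <;> ring

/-- Matrices congruent to scalars modulo `169` (and `13 * 169`) lower by `15`. -/
private theorem low_n (hSubA : S13SubA) (R : Rules r s) (p q u v : ℤ) (hp : ¬ 13 ∣ p) (hv : ¬ 13 ∣ v)
    (hq : 169 ∣ q) (hu : 169 ∣ u) (hpv : 169 ∣ p - v) : Lw (op13 p q u v - 1 : En r s) 15 := by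
  obtain ⟨q1, hq1⟩ := hq
  obtain ⟨u1, hu1⟩ := hu
  obtain ⟨k, hk⟩ := hpv
  intro e F hF
  let t : ZMod (13 ^ r) → ZMod (13 ^ r) := fun x => ((q1 : ZMod (13 ^ r)) + (-k) * x +
    (-13 * u1) * (x * x)) * ((p : ZMod (13 ^ r)) + 13 * u * x)⁻¹
  let t' : ZMod (13 ^ s) → ZMod (13 ^ s) := fun y => ((u1 : ZMod (13 ^ s)) + k * y +
    (-13 * q1) * (y * y)) * ((v : ZMod (13 ^ s)) + 13 * q * y)⁻¹
  have ht : Lip t := by
    refine (((Lip.const _).add ((Lip.const _).mul Lip.idm)).add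
      ((Lip.const _).mul (Lip.idm.mul Lip.idm))).mul ?_
    exact Lip.inv ((Lip.const _).add ((Lip.const _).mul Lip.idm)) fun x => invA r p hp _ x
  have ht' : Lip t' := by
    refine (((Lip.const _).add ((Lip.const _).mul Lip.idm)).add
      ((Lip.const _).mul (Lip.idm.mul Lip.idm))).mul ?_
    exact Lip.inv ((Lip.const _).add ((Lip.const _).mul Lip.idm)) fun x => invA s v hv _ x
  have er1 : (p : ZMod (13 ^ r)) - v = 169 * k := by
    exact_mod_cast congrArg (Int.cast : ℤ → ZMod (13 ^ r)) hk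
  have er2 : (q : ZMod (13 ^ r)) = 169 * q1 := by
    exact_mod_cast congrArg (Int.cast : ℤ → ZMod (13 ^ r)) hq1
  have er3 : (u : ZMod (13 ^ r)) = 169 * u1 := by
    exact_mod_cast congrArg (Int.cast : ℤ → ZMod (13 ^ r)) hu1
  have es1 : (p : ZMod (13 ^ s)) - v = 169 * k := by
    exact_mod_cast congrArg (Int.cast : ℤ → ZMod (13 ^ s)) hk
  have es2 : (q : ZMod (13 ^ s)) = 169 * q1 := by
    exact_mod_cast congrArg (Int.cast : ℤ → ZMod (13 ^ s)) hq1
  have es3 : (u : ZMod (13 ^ s)) = 169 * u1 := by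
    exact_mod_cast congrArg (Int.cast : ℤ → ZMod (13 ^ s)) hu1
  have hX : ∀ x : ZMod (13 ^ r), ((q : ZMod (13 ^ r)) + v * x) * ((p : ZMod (13 ^ r)) + 13 * u * x)⁻¹ =
      x + 169 * t x := by
    intro x
    have hi := invA r p hp (u : ZMod (13 ^ r)) x
    refine frac hi ?_
    simp only [t]
    generalize ((p : ZMod (13 ^ r)) + 13 * u * x)⁻¹ = z at hi ⊢
    linear_combination er2 - x * er1 - 13 * x ^ 2 * er3 -
      169 * (q1 + (-k) * x + (-13 * u1) * (x * x)) * hi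
  have hY : ∀ y : ZMod (13 ^ s), ((u : ZMod (13 ^ s)) + p * y) * ((v : ZMod (13 ^ s)) + 13 * q * y)⁻¹ =
      y + 169 * t' y := by
    intro y
    have hi := invA s v hv (q : ZMod (13 ^ s)) y
    refine frac hi ?_
    simp only [t']
    generalize ((v : ZMod (13 ^ s)) + 13 * q * y)⁻¹ = z at hi ⊢
    linear_combination es3 + y * es1 - 13 * y ^ 2 * es2 -
      169 * (u1 + k * y + (-13 * q1) * (y * y)) * hi
  have s1 := (hSubA r s).1 t' ht' e F hF
  obtain ⟨G, hG⟩ : ∃ G : Fn13 (13 ^ r) (13 ^ s), G = fun x y => F x (y + 169 * t' y) := ⟨_, rfl⟩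
  have hGW : G ∈ (Wd13 e : Submodule (ZMod 13) (Fn13 (13 ^ r) (13 ^ s))) := by
    have h := Submodule.add_mem _ (R.mono (e - 15) e (by omega) s1) hF
    have e1 : ((fun x y => F x (y + 169 * t' y) - F x y) + F : Fn13 (13 ^ r) (13 ^ s)) = G := by
      rw [hG]
      funext x y
      change F x (y + 169 * t' y) - F x y + F x y = F x (y + 169 * t' y)
      ring
    rwa [e1] at h
  have s2 := (hSubA r s).2 t ht e G hGW
  have h := Submodule.add_mem _ s2 s1
  have e1 : (op13 p q u v - 1 : En r s) F =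
      (fun x y => G (x + 169 * t x) y - G x y) + (fun x y => F x (y + 169 * t' y) - F x y) := by
    rw [hG]
    funext x y
    change F (((q : ZMod (13 ^ r)) + v * x) * ((p : ZMod (13 ^ r)) + 13 * u * x)⁻¹)
      (((u : ZMod (13 ^ s)) + p * y) * ((v : ZMod (13 ^ s)) + 13 * q * y)⁻¹) - F x y =
      (F (x + 169 * t x) (y + 169 * t' y) - F x (y + 169 * t' y)) + (F x (y + 169 * t' y) - F x y)
    rw [hX, hY]
    ring
  rw [e1]
  exact h

end main

end Nf

open Nf in
/-- NF. -/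
theorem hNf (hm : S13Trm) (hl : S13Low0) (hn : S13Nfa) (ha : S13SubA) : S13Nf := by
  intro r s a b c d w β γ m hA hD h1 h2 h3
  have R := rules hl r s
  -- the normal form preserves degrees
  have hlow : Lw (oW w * oB ^ γ * oD ^ m * oA ^ β : Module.End (ZMod 13) (Fn13 (13 ^ r) (13 ^ s))) 0 := by
    obtain ⟨f1, _, _, _, _, f6, _, _, f9, f10⟩ := hn r s
    have g := R.mul _ _ _ _ (R.mul _ _ _ _ (R.mul _ _ _ _ (f1 w)
      (R.pow (R.of_sub_one (by norm_num) f10) γ)) (R.pow (R.of_sub_one (by norm_num) f6) m))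
      (R.pow (R.of_sub_one (by norm_num) f9) β)
    simpa using g
  obtain ⟨C, hC⟩ : ∃ C : ℤ, C = om12 w * γ := ⟨_, rfl⟩
  obtain ⟨D, hD0⟩ : ∃ D : ℤ, D = om12 w * (13 * γ * β + 14 ^ m) := ⟨_, rfl⟩
  have hnf := nf_eq (r := r) (s := s) hm w β γ m
  rw [← hC, ← hD0] at hnf
  have hdet : D - 13 * β * C = om12 w * 14 ^ m := by rw [hC, hD0]; ring
  have hdet5 : ¬ 13 ∣ om12 w * 14 ^ m := ndvd_mul (om_ne w) (n6 m)
  have hD5 : ¬ 13 ∣ D := by
    intro h
    apply hdet5
    rw [← hdet]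
    exact dvd_sub h ⟨β * C, by ring⟩
  obtain ⟨b1, hb1⟩ := h1
  obtain ⟨c1, hc1⟩ := h2
  obtain ⟨d1, hd1⟩ := h3
  have hc' : c = C * a + 169 * c1 := by rw [hC]; linear_combination hc1
  have hd' : d = D * a + 169 * d1 := by rw [hD0]; linear_combination hd1
  have hb' : b = β * a + 169 * b1 := by linear_combination hb1
  -- the quotient matrix
  have hq1 : ¬ 13 ∣ a * D - 13 * b * C := by
    intro h
    apply ndvd_mul hA hD5
    have h5 : (13 : ℤ) ∣ (a * D - 13 * b * C) + 13 * (b * C) := dvd_add h (dvd_mul_right _ _)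
    have e : (a * D - 13 * b * C) + 13 * (b * C) = a * D := by ring
    rwa [e] at h5
  have hq4 : ¬ 13 ∣ d - 13 * c * β := by
    intro h
    apply hD
    have h5 : (13 : ℤ) ∣ (d - 13 * c * β) + 13 * (c * β) := dvd_add h (dvd_mul_right _ _)
    have e : (d - 13 * c * β) + 13 * (c * β) = d := by ring
    rwa [e] at h5
  have hN := low_n (r := r) (s := s) ha R (a * D - 13 * b * C) (b - a * β) (c * D - d * C) (d - 13 * c * β)
    hq1 hq4 ⟨b1, by rw [hb']; ring⟩ ⟨c1 * D - d1 * C, by rw [hc', hd']; ring⟩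
    ⟨-d1 - 13 * b1 * C + 13 * c1 * β, by rw [hb', hc', hd']; ring⟩
  have hprod : (op13 a b c d : Module.End (ZMod 13) (Fn13 (13 ^ r) (13 ^ s))) =
      op13 (a * D - 13 * b * C) (b - a * β) (c * D - d * C) (d - 13 * c * β) * op13 1 β C D := by
    rw [op_mul hm hq1 hq4 n1 hD5]
    rw [← op_scale (k := om12 w * 14 ^ m) (a := a) (b := b) (c := c) (d := d) hm hdet5 hA hD,
      ← hdet]
    congr 1 <;> ring
  rw [hnf] at hlow ⊢
  rw [hprod]
  have g := R.mul _ _ _ _ hN hlow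
  rw [sub_mul, one_mul, add_zero] at g
  exact g

end Pool.Agent.Helper84.P13
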