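import Pool.Agent.Helper84.P13.StD1

/-!
# Module W7 PlA (MP_1d384c_nt): the standard matrix
-/

set_option autoImplicit false

namespace Pool.Agent.Helper84.P13

open Pool.Agent.Helper84.P13 Pool.Agent.Helper14.W5

theorem hPlA : S13PlA := by
  intro μ r s x y
  refine ⟨by ring, ?_, ?_⟩
  · rw [Int.cast_natCast, ZMod.natCast_zmod_val, Int.cast_one, mul_one]
  · set t : ZMod (13 ^ s) := 13 ^ (μ + 1) * ((x.val : ℕ) : ZMod (13 ^ s)) with ht
    have hu : IsUnit (1 - t * y) := by
      refine IsNilpotent.isUnit_one_sub ⟨s, ?_⟩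
      have h2 : (13 : ZMod (13 ^ s)) ^ s = 0 := by
        have := ZMod.natCast_self (13 ^ s)
        push_cast at this
        exact this
      have e : t * y = 13 * (13 ^ μ * ((x.val : ℕ) : ZMod (13 ^ s)) * y) := by
        rw [ht, pow_succ]
        ring
      rw [e, mul_pow, h2, zero_mul]
    have hinv := ZMod.mul_inv_of_unit _ hu
    set v : ZMod (13 ^ s) := (1 - t * y)⁻¹ with hv
    have hY : ((rY13 μ x y : ℤ) : ZMod (13 ^ s)) = y * v := by
      rw [rY13, Int.cast_natCast, ZMod.natCast_zmod_val]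
    have hd : ((1 + 13 ^ (μ + 1) * (x.val : ℤ) * rY13 μ x y : ℤ) : ZMod (13 ^ s)) = 1 + t * (y * v) := by
      rw [Int.cast_add, Int.cast_one, Int.cast_mul, hY, ht]
      push_cast
      ring
    rw [hY, hd]
    have e2 : y * (1 + t * (y * v)) - y * v = y * (1 - (1 - t * y) * v) := by ring
    rw [hinv, sub_self, mul_zero] at e2
    exact (sub_eq_zero.1 e2).symm

end Pool.Agent.Helper84.P13
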