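import Pool.Agent.Helper84.P13.StD1

/-!
# Project W7, module UNB: back to the group with lower left entry divisible by a power of seven
-/

set_option autoImplicit false

namespace Pool.Agent.Helper84.P13

open Pool.Agent.Helper84.P13
open Pool.Agent.Helper14.CV (Homog EqC act Tl)
open Pool.Agent.Helper28.WK (SymP Tw evw Ok)

private lemma seven_or (r : ℕ) {p q : ℤ} (h : p ≠ 0 ∨ q ≠ 0) : (13 ^ r * p ≠ 0 ∨ q ≠ 0) := by
  rcases h with h0 | h0
  · exact Or.inl (mul_ne_zero (by positivity) h0)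
  · exact Or.inr h0

private lemma sym_ub {r s : ℕ} {G : ℤ → ℤ → ℤ} (h : SymP 13 r s G) : SymP 13 0 (r + s) (ub r G) := by
  refine ⟨?_, ?_⟩
  · intro k p q hk hpq
    have e := h.1 k (13 ^ r * p) q hk (seven_or r hpq)
    have e1 : 13 ^ r * (k * p) = k * (13 ^ r * p) := by ring
    simp only [ub]
    rw [e1, e]
  · intro a b c d hdet _ hc
    obtain ⟨c', hc'⟩ := hc
    rw [Nat.cast_ofNat] at hc'
    obtain ⟨k, hk⟩ := h.2 a (13 ^ r * b) (13 ^ s * c') d
      (by rw [← hdet, hc', pow_add]; ring)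
      (by rw [Nat.cast_ofNat]; exact Dvd.intro _ rfl) (by rw [Nat.cast_ofNat]; exact Dvd.intro _ rfl)
    refine ⟨(k : ℂ), ?_⟩
    intro p q hpq
    have e := hk (13 ^ r * p) q (seven_or r hpq)
    simp only [act, ub] at e ⊢
    have e1 : 13 ^ r * (a * p + b * q) = a * (13 ^ r * p) + 13 ^ r * b * q := by ring
    have e2 : c * p + d * q = 13 ^ s * c' * (13 ^ r * p) + d * q := by
      rw [hc', pow_add]
      ring
    rw [e1, e2, e, Int.cast_add]

private lemma Tl_ub (l r : ℕ) (G : ℤ → ℤ → ℤ) : Tl l 1 (ub r G) = ub r (Tl l (13 ^ r) G) := by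
  funext p q
  simp only [Tl, ub]
  rw [Int.cast_add, Int.cast_sum]
  congr 1
  · congr 2
    ring
  · refine Finset.sum_congr rfl ?_
    intro j _
    congr 2
    ring

private lemma homog_Tl {G : ℤ → ℤ → ℤ} (l : ℕ) (hl : 0 < l) (m : ℤ) (h : Homog G) :
    Homog (Tl l m G) := by
  intro k p q hk hpq
  have hl0 : (l : ℤ) ≠ 0 := by exact_mod_cast hl.ne'
  simp only [Tl]
  congr 1
  · have e := h k (l * p) q hk (by
      rcases hpq with h0 | h0
      · exact Or.inl (mul_ne_zero hl0 h0)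
      · exact Or.inr h0)
    rw [← e]
    congr 1
    ring
  · refine Finset.sum_congr rfl ?_
    intro j _
    have e := h k (p + m * j * q) (l * q) hk (by
      by_cases hq : q = 0
      · left
        rcases hpq with h0 | h0
        · rw [hq, mul_zero, add_zero]
          exact h0
        · exact absurd hq h0
      · exact Or.inr (mul_ne_zero hl0 hq))
    rw [← e]
    congr 1
    · ring
    · ring

private lemma Tw_ub (r : ℕ) (G : ℤ → ℤ → ℤ) (ls : List ℕ) : Tw 1 ls (ub r G) = ub r (Tw (13 ^ r) ls G) := by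
  induction ls with
  | nil => rfl
  | cons l ls ih =>
    change Tl l 1 (Tw 1 ls (ub r G)) = ub r (Tl l (13 ^ r) (Tw (13 ^ r) ls G))
    rw [ih, Tl_ub]

private lemma homog_Tw {G : ℤ → ℤ → ℤ} (m : ℤ) (h : Homog G) (ls : List ℕ) (hls : Ok 13 ls) : Homog (Tw m ls G) := by
  induction ls with
  | nil => exact h
  | cons l ls ih =>
    change Homog (Tl l m (Tw m ls G))
    exact homog_Tl l (hls l List.mem_cons_self).1.pos m (ih fun l' hl' => hls l' (List.mem_cons_of_mem _ hl'))

/-- **Module UNB.** -/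
theorem hUnb : S13Unb := by
  intro r G
  refine ⟨fun l => Tl_ub l r G, fun s hG => ⟨sym_ub hG, fun ls hls => ?_⟩⟩
  have e := homog_Tw (13 ^ r) hG.1 ls hls (13 ^ r) 1 0 (by positivity) (Or.inl one_ne_zero)
  rw [mul_zero] at e
  unfold evw
  rw [Tw_ub]
  simp only [ub]
  rw [mul_zero, e, Int.cast_sub]

end Pool.Agent.Helper84.P13
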