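import Pool.Agent.Helper84.P13.StD1

/-!
# Project W7 (MP_1d384c_nt): module Val (value at the origin of a list, functions of degree at most 12)
-/

set_option autoImplicit false

namespace Pool.Agent.Helper84.P13

open Pool.Agent.Helper84.P13

section lists

variable {q q' : ℕ}

private lemma opL_nil : (opL [] : Module.End (ZMod 13) (Fn13 q q')) = 0 := by simp [opL]

private lemma opL_cons (t : Tm) (L : List Tm) : (opL (t :: L) : Module.End (ZMod 13) (Fn13 q q')) =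
    ((t.1 : ℤ) : ZMod 13) • op13 t.2.1 t.2.2.1 t.2.2.2.1 t.2.2.2.2 + opL L := by simp [opL]

private lemma op_zero (a b c d : ℤ) (F : Fn13 q q') :
    (op13 a b c d F : Fn13 q q') 0 0 =
      F ((b : ZMod q) * (a : ZMod q)⁻¹) ((c : ZMod q') * (d : ZMod q')⁻¹) := by
  change F (((b : ZMod q) + d * 0) * ((a : ZMod q) + 13 * c * 0)⁻¹)
    (((c : ZMod q') + a * 0) * ((d : ZMod q') + 13 * b * 0)⁻¹) = _
  simp only [mul_zero, add_zero]

private lemma dXpow (k : ℕ) (F : Fn13 q q') (y : ZMod q') :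
    (fun x => ((dX ^ k : Module.End (ZMod 13) (Fn13 q q')) F) x y) =
      (fwdDiff (1 : ZMod q))^[k] (fun x => F x y) := by
  induction k with
  | zero => rfl
  | succ k ih =>
    rw [Function.iterate_succ_apply', ← ih, pow_succ']
    rfl

private lemma dYpow (k : ℕ) (F : Fn13 q q') (x : ZMod q) :
    (fun y => ((dY ^ k : Module.End (ZMod 13) (Fn13 q q')) F) x y) =
      (fwdDiff (1 : ZMod q'))^[k] (fun y => F x y) := by
  induction k with
  | zero => rfl
  | succ k ih =>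
    rw [Function.iterate_succ_apply', ← ih, pow_succ']
    rfl

private lemma newX (n : ℕ) (F : Fn13 q q') (x : ZMod q) (y : ZMod q') :
    F (x + n) y = ∑ i ∈ Finset.range (n + 1), (n.choose i : ZMod 13) *
      ((dX ^ i : Module.End (ZMod 13) (Fn13 q q')) F) x y := by
  have h := shift_eq_sum_fwdDiff_iter (1 : ZMod q) (fun x => F x y) n x
  rw [nsmul_one] at h
  rw [h]
  refine Finset.sum_congr rfl fun i _ => ?_
  rw [← dXpow, nsmul_eq_mul]

private lemma newY (n : ℕ) (F : Fn13 q q') (x : ZMod q) (y : ZMod q') :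
    F x (y + n) = ∑ i ∈ Finset.range (n + 1), (n.choose i : ZMod 13) *
      ((dY ^ i : Module.End (ZMod 13) (Fn13 q q')) F) x y := by
  have h := shift_eq_sum_fwdDiff_iter (1 : ZMod q') (fun y => F x y) n y
  rw [nsmul_one] at h
  rw [h]
  refine Finset.sum_congr rfl fun i _ => ?_
  rw [← dYpow, nsmul_eq_mul]

private lemma seven : ∀ g : ℕ → ZMod 13, g 13 = 0 →
    ∑ i ∈ Finset.range (13 + 1), (Nat.choose 13 i : ZMod 13) * g i = g 0 := by
  intro g hg
  have h7 : (13 : ZMod 13) = 0 := by decide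
  have h78 : (78 : ZMod 13) = 0 := by decide
  have h286 : (286 : ZMod 13) = 0 := by decide
  have h715 : (715 : ZMod 13) = 0 := by decide
  have h1287 : (1287 : ZMod 13) = 0 := by decide
  have h1716 : (1716 : ZMod 13) = 0 := by decide
  simp [Finset.sum_range_succ, Nat.choose, hg, h7, h78, h286, h715, h1287, h1716]

private lemma perX (F : Fn13 q q') (h : (dX ^ 13 : Module.End (ZMod 13) (Fn13 q q')) F = 0) (y : ZMod q') :
    ∀ (n : ℕ) (x : ZMod q), F (x + 13 * (n : ZMod q)) y = F x y := by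
  intro n
  induction n with
  | zero => intro x; simp
  | succ n ih =>
    intro x
    have e : x + 13 * ((n + 1 : ℕ) : ZMod q) = (x + 13 * (n : ZMod q)) + (13 : ℕ) := by
      push_cast; ring
    rw [e, newX 13 F, seven _ (by rw [h]; rfl), pow_zero]
    exact ih x

private lemma perY (F : Fn13 q q') (h : (dY ^ 13 : Module.End (ZMod 13) (Fn13 q q')) F = 0) (x : ZMod q) :
    ∀ (n : ℕ) (y : ZMod q'), F x (y + 13 * (n : ZMod q')) = F x y := by
  intro n
  induction n with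
  | zero => intro y; simp
  | succ n ih =>
    intro y
    have e : y + 13 * ((n + 1 : ℕ) : ZMod q') = (y + 13 * (n : ZMod q')) + (13 : ℕ) := by
      push_cast; ring
    rw [e, newY 13 F, seven _ (by rw [h]; rfl), pow_zero]
    exact ih y

private lemma perX' [NeZero q] (F : Fn13 q q') (h : (dX ^ 13 : Module.End (ZMod 13) (Fn13 q q')) F = 0)
    (x u : ZMod q) (y : ZMod q') : F (x + 13 * u) y = F x y := by
  have := perX F h y u.val x
  rwa [ZMod.natCast_zmod_val] at this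

private lemma perY' [NeZero q'] (F : Fn13 q q') (h : (dY ^ 13 : Module.End (ZMod 13) (Fn13 q q')) F = 0)
    (x : ZMod q) (y u : ZMod q') : F x (y + 13 * u) = F x y := by
  have := perY F h x u.val y
  rwa [ZMod.natCast_zmod_val] at this

end lists

private lemma unitInt (r : ℕ) (a : ℤ) (ha : a % 13 ≠ 0) : IsUnit (a : ZMod (13 ^ r)) := by
  have ha' : ¬ (13 : ℤ) ∣ a := by omega
  have h1 : IsCoprime a (13 : ℤ) := by
    have hp : Prime (13 : ℤ) := by
      have := Nat.prime_iff_prime_int.1 (by norm_num : Nat.Prime 13)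
      exact_mod_cast this
    exact ((Prime.coprime_iff_not_dvd hp).2 ha').symm
  have h2 : IsCoprime a ((13 : ℤ) ^ r) := h1.pow_right
  obtain ⟨u, v, huv⟩ := h2
  have h3 : (u : ZMod (13 ^ r)) * (a : ZMod (13 ^ r)) = 1 := by
    have h4 : ((u * a + v * (13 : ℤ) ^ r : ℤ) : ZMod (13 ^ r)) = ((1 : ℤ) : ZMod (13 ^ r)) := by
      rw [huv]
    have h5 : (((13 : ℤ) ^ r : ℤ) : ZMod (13 ^ r)) = 0 := by
      have h := ZMod.natCast_self (13 ^ r)
      push_cast at h ⊢
      exact h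
    push_cast at h4 h5
    rw [h5, mul_zero, add_zero] at h4
    exact h4
  exact IsUnit.of_mul_eq_one (u : ZMod (13 ^ r)) (by rw [mul_comm]; exact h3)

private lemma sixth (a : ℤ) (ha : a % 13 ≠ 0) : ∃ k : ℤ, a ^ 12 = 1 + 13 * k := by
  have h : a ^ 12 % 13 = 1 := by
    have h1 : a % 13 = 1 ∨ a % 13 = 2 ∨ a % 13 = 3 ∨ a % 13 = 4 ∨ a % 13 = 5 ∨ a % 13 = 6 ∨ a % 13 = 7 ∨
      a % 13 = 8 ∨ a % 13 = 9 ∨ a % 13 = 10 ∨ a % 13 = 11 ∨ a % 13 = 12 := by omega
    rcases h1 with h1 | h1 | h1 | h1 | h1 | h1 | h1 | h1 | h1 | h1 | h1 | h1 <;>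
      norm_num [pow_succ, Int.mul_emod, h1]
  exact ⟨a ^ 12 / 13, by omega⟩

private lemma resid (r : ℕ) (a b : ℤ) (ha : a % 13 ≠ 0) : ∃ u : ZMod (13 ^ r),
    (b : ZMod (13 ^ r)) * (a : ZMod (13 ^ r))⁻¹ =
      0 + ((((b * a ^ 11) % 13).toNat : ℕ) : ZMod (13 ^ r)) + 13 * u := by
  have h1 : (a : ZMod (13 ^ r)) * (a : ZMod (13 ^ r))⁻¹ = 1 := ZMod.mul_inv_of_unit _ (unitInt r a ha)
  obtain ⟨k, hk⟩ := sixth a ha
  have hk' : (a : ZMod (13 ^ r)) ^ 12 = 1 + 13 * (k : ZMod (13 ^ r)) := by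
    have := congrArg (fun z : ℤ => (z : ZMod (13 ^ r))) hk
    push_cast at this
    exact this
  have h2 : ((((b * a ^ 11) % 13).toNat : ℕ) : ZMod (13 ^ r)) =
      (b : ZMod (13 ^ r)) * (a : ZMod (13 ^ r)) ^ 11 - 13 * ((b * a ^ 11 / 13 : ℤ) : ZMod (13 ^ r)) := by
    have e1 : ((((b * a ^ 11) % 13).toNat : ℕ) : ℤ) = b * a ^ 11 - 13 * (b * a ^ 11 / 13) := by omega
    have e2 : (((((b * a ^ 11) % 13).toNat : ℕ) : ℤ) : ZMod (13 ^ r)) =
        ((b * a ^ 11 - 13 * (b * a ^ 11 / 13) : ℤ) : ZMod (13 ^ r)) := by rw [e1]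
    rw [Int.cast_natCast] at e2
    rw [e2]
    push_cast
    ring
  refine ⟨((b * a ^ 11 / 13 : ℤ) : ZMod (13 ^ r)) - k * ((b : ZMod (13 ^ r)) * (a : ZMod (13 ^ r))⁻¹), ?_⟩
  rw [h2]
  linear_combination (b : ZMod (13 ^ r)) * (a : ZMod (13 ^ r)) ^ 11 * h1 -
    (b : ZMod (13 ^ r)) * (a : ZMod (13 ^ r))⁻¹ * hk'

section ops

variable {r s : ℕ}

/-- the value at the origin -/
private lemma val_zero (hcm : (dX * dY : Module.End (ZMod 13) (Fn13 (13 ^ r) (13 ^ s))) = dY * dX)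
    (G : Fn13 (13 ^ r) (13 ^ s)) (hG : G ∈ Wd13 12) (a b c d : ℤ) (ha : a % 13 ≠ 0) (hd : d % 13 ≠ 0) :
    (op13 a b c d G : Fn13 (13 ^ r) (13 ^ s)) 0 0 = ∑ i ∈ Finset.range 13, ∑ j ∈ Finset.range 13,
      ((((((b * a ^ 11) % 13).toNat).choose i * (((c * d ^ 11) % 13).toNat).choose j : ℕ) : ℤ) : ZMod 13) *
        ((dX ^ i * dY ^ j : Module.End (ZMod 13) (Fn13 (13 ^ r) (13 ^ s))) G) 0 0 := by
  have hx : (dX ^ 13 : Module.End (ZMod 13) (Fn13 (13 ^ r) (13 ^ s))) G = 0 := by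
    have := hG 13 0 (by norm_num)
    rwa [pow_zero, mul_one] at this
  have hy : (dY ^ 13 : Module.End (ZMod 13) (Fn13 (13 ^ r) (13 ^ s))) G = 0 := by
    have := hG 0 13 (by norm_num)
    rwa [pow_zero, one_mul] at this
  obtain ⟨u, hu⟩ := resid r a b ha
  obtain ⟨v, hv⟩ := resid s d c hd
  have hx4 : ((b * a ^ 11) % 13).toNat ≤ 12 := by omega
  have hy4 : ((c * d ^ 11) % 13).toNat ≤ 12 := by omega
  rw [op_zero, hu, hv, perX' G hx, perY' G hy]
  generalize ((b * a ^ 11) % 13).toNat = X at hx4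
  generalize ((c * d ^ 11) % 13).toNat = Y at hy4
  have ext7 : ∀ (N : ℕ) (g : ℕ → ZMod 13), N ≤ 12 →
      ∑ i ∈ Finset.range (N + 1), (N.choose i : ZMod 13) * g i =
        ∑ i ∈ Finset.range 13, (N.choose i : ZMod 13) * g i := by
    intro N g hN
    refine Finset.sum_subset (fun i hi => ?_) (fun i _ hi => ?_)
    · rw [Finset.mem_range] at hi ⊢; omega
    · rw [Finset.mem_range, not_lt] at hi
      rw [Nat.choose_eq_zero_of_lt (by omega), Nat.cast_zero, zero_mul]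
  rw [newX X G 0 _, ext7 X _ hx4]
  refine Finset.sum_congr rfl fun i _ => ?_
  rw [newY Y ((dX ^ i : Module.End (ZMod 13) (Fn13 (13 ^ r) (13 ^ s))) G) 0 0, ext7 Y _ hy4, Finset.mul_sum]
  refine Finset.sum_congr rfl fun j _ => ?_
  have hc : (dY ^ j * dX ^ i : Module.End (ZMod 13) (Fn13 (13 ^ r) (13 ^ s))) = dX ^ i * dY ^ j := by
    have h1 : Commute (dX : Module.End (ZMod 13) (Fn13 (13 ^ r) (13 ^ s))) dY := hcm
    exact (h1.pow_pow i j).eq.symm
  have e : ((dY ^ j : Module.End (ZMod 13) (Fn13 (13 ^ r) (13 ^ s)))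
      ((dX ^ i : Module.End (ZMod 13) (Fn13 (13 ^ r) (13 ^ s))) G)) =
      (dX ^ i * dY ^ j : Module.End (ZMod 13) (Fn13 (13 ^ r) (13 ^ s))) G := by
    rw [← hc]; rfl
  rw [e]
  push_cast
  ring

end ops

/-- VAL. -/
theorem hVal (hl : S13Low0) : S13Val := by
  intro r s L hL G hG
  obtain ⟨_, _, _, _, _, _, _, _, hcm, _⟩ := hl r s
  induction L with
  | nil => simp [opL_nil, nS]
  | cons t L ih =>
    have h1 := hL t List.mem_cons_self
    have h2 := ih fun x hx => hL x (List.mem_cons_of_mem _ hx)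
    have h3 := val_zero hcm G hG t.2.1 t.2.2.1 t.2.2.2.1 t.2.2.2.2 h1.1 h1.2
    rw [opL_cons]
    change ((t.1 : ℤ) : ZMod 13) * (op13 t.2.1 t.2.2.1 t.2.2.2.1 t.2.2.2.2 G : Fn13 (13 ^ r) (13 ^ s)) 0 0 +
      (opL L G : Fn13 (13 ^ r) (13 ^ s)) 0 0 = _
    rw [h2, h3, Finset.mul_sum, ← Finset.sum_add_distrib]
    refine Finset.sum_congr rfl fun i _ => ?_
    rw [Finset.mul_sum, ← Finset.sum_add_distrib]
    refine Finset.sum_congr rfl fun j _ => ?_
    have e : nS (t :: L) i j = (t.1 : ℤ) * (((((t.2.2.1 * t.2.1 ^ 11) % 13).toNat).choose i *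
      (((t.2.2.2.1 * t.2.2.2.2 ^ 11) % 13).toNat).choose j : ℕ) : ℤ) + nS L i j := by
      simp [nS]
    rw [e]
    push_cast
    ring

end Pool.Agent.Helper84.P13
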