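import Pool.Agent.Helper84.P13.WxO

/-!
# Project P13, certificate CEG: all terms are good
-/

set_option autoImplicit false
set_option maxRecDepth 1000000

namespace Pool.Agent.Helper84.P13

open Pool.Agent.Helper81.P13 (Ex gd_spec)
open Pool.Agent.Helper28.P13

private theorem g1 : ∀ l ∈ PrM, ∀ i f : Fin 4, (Ex.lst (TM l i f)).gd = true := by
  decide +kernel

private theorem g2 : ∀ ρ f : Fin 4, (Ex.lst (relM ρ f)).gd = true := by
  decide +kernel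

private theorem g3 : ∀ i ρ : Fin 4, (Ex.lst (mUM i ρ)).gd = true := by
  decide +kernel

private theorem g4 : ∀ i ρ : Fin 4, (Ex.lst (mVM i ρ)).gd = true := by
  decide +kernel

private theorem g5 : ∀ c ≤ 13, ∀ ρ : Fin 4, (Ex.lst (mOM c ρ)).gd = true := by
  decide +kernel

theorem gdT : ∀ l ∈ PrM, ∀ i f : Fin 4, ∀ t ∈ TM l i f, Gd t :=
  fun l hl i f => gd_spec _ (g1 l hl i f)

theorem gdR : ∀ ρ f : Fin 4, ∀ t ∈ relM ρ f, Gd t := fun ρ f => gd_spec _ (g2 ρ f)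

theorem gdU : ∀ i ρ : Fin 4, ∀ t ∈ mUM i ρ, Gd t := fun i ρ => gd_spec _ (g3 i ρ)

theorem gdV : ∀ i ρ : Fin 4, ∀ t ∈ mVM i ρ, Gd t := fun i ρ => gd_spec _ (g4 i ρ)

theorem gdO : ∀ c ≤ 13, ∀ ρ : Fin 4, ∀ t ∈ mOM c ρ, Gd t := fun c hc ρ => gd_spec _ (g5 c hc ρ)

end Pool.Agent.Helper84.P13
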