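import Pool.Agent.Helper76.P13.StD
import Pool.Agent.Helper84.P13.P_CeG

/-!
# Project P13, module CEG: all terms are good
-/

set_option autoImplicit false

namespace Pool.Agent.Helper84.P13C

open Pool.Agent.Helper76.P13D
open Pool.Agent.Helper84.P13

theorem hCeG : TCeG :=
  ⟨gdT, fun ρ f => ⟨gdR ρ f, gdU ρ f, gdV ρ f⟩, gdO⟩

end Pool.Agent.Helper84.P13C
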