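import Pool.Agent.Helper84.P13.P_CeO

/-!
# Project P13, certificate CEO, part b
-/

set_option autoImplicit false
set_option maxRecDepth 1000000

namespace Pool.Agent.Helper84.P13

open Pool.Agent.Helper28.P13

theorem o9_0 : fastO (bX (OW 9) (mOM 9) 0 0) (nT 9) (qT 9 0) = true := by decide +kernel

theorem o9_1 : fastO (bX (OW 9) (mOM 9) 0 1) (nT 9) (qT 9 1) = true := by decide +kernel

theorem o9_2 : fastO (bX (OW 9) (mOM 9) 0 2) (nT 9) (qT 9 2) = true := by decide +kernel

theorem o9_3 : fastO (bX (OW 9) (mOM 9) 0 3) (nT 9) (qT 9 3) = true := by decide +kernel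

end Pool.Agent.Helper84.P13
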