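import Pool.Agent.Helper84.P13.P_CeO_a
import Pool.Agent.Helper84.P13.P_CeO_b
import Pool.Agent.Helper84.P13.P_CeO_c
import Pool.Agent.Helper84.P13.P_CeO_d
import Pool.Agent.Helper84.P13.P_CeO_e
import Pool.Agent.Helper84.P13.P_CeO_f

/-!
# Project P13, certificate CEO
-/

set_option autoImplicit false
set_option maxRecDepth 1000000

namespace Pool.Agent.Helper84.P13

open Pool.Agent.Helper28.P13

private theorem oo : ∀ c ≤ 13, ∀ f : Fin 4, fastO (bX (OW c) (mOM c) 0 f) (nT c) (qT c f.val) = true := by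
  intro c hc f
  interval_cases c
  · exact match f with
    | 0 => o0_0
    | 1 => o0_1
    | 2 => o0_2
    | 3 => o0_3
  · exact match f with
    | 0 => o1_0
    | 1 => o1_1
    | 2 => o1_2
    | 3 => o1_3
  · exact match f with
    | 0 => o2_0
    | 1 => o2_1
    | 2 => o2_2
    | 3 => o2_3
  · exact match f with
    | 0 => o3_0
    | 1 => o3_1
    | 2 => o3_2
    | 3 => o3_3
  · exact match f with
    | 0 => o4_0
    | 1 => o4_1
    | 2 => o4_2
    | 3 => o4_3
  · exact match f with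
    | 0 => o5_0
    | 1 => o5_1
    | 2 => o5_2
    | 3 => o5_3
  · exact match f with
    | 0 => o6_0
    | 1 => o6_1
    | 2 => o6_2
    | 3 => o6_3
  · exact match f with
    | 0 => o7_0
    | 1 => o7_1
    | 2 => o7_2
    | 3 => o7_3
  · exact match f with
    | 0 => o8_0
    | 1 => o8_1
    | 2 => o8_2
    | 3 => o8_3
  · exact match f with
    | 0 => o9_0
    | 1 => o9_1
    | 2 => o9_2
    | 3 => o9_3
  · exact match f with
    | 0 => o10_0
    | 1 => o10_1
    | 2 => o10_2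
    | 3 => o10_3
  · exact match f with
    | 0 => o11_0
    | 1 => o11_1
    | 2 => o11_2
    | 3 => o11_3
  · exact match f with
    | 0 => o12_0
    | 1 => o12_1
    | 2 => o12_2
    | 3 => o12_3
  · exact match f with
    | 0 => o13_0
    | 1 => o13_1
    | 2 => o13_2
    | 3 => o13_3

theorem ceO : ∀ c ≤ 13, ∀ f : Fin 4, ∀ t ∈ M15, (t.2.1 = 0 ∨ t.1 ≠ 0) → t.1 + 12 * t.2.1 + t.2.2 ≤ nT c →
    (13 : ℤ) ∣ (∑ w : Fin 12, cS (BOM c f) w t.1 t.2.1 t.2.2) -
      (if t.2.1 = 0 ∧ t.1 + t.2.2 = nT c then qT c f.val t.1 else 0) := by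
  intro c hc f t ht h0 hn
  have h := cO_fastO _ _ _ (oo c hc f) t ht h0 hn
  rw [bX_toL] at h
  exact h

end Pool.Agent.Helper84.P13
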