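import Pool.Agent.Helper76.P13.StD
import Pool.Agent.Helper84.P13.M_CeO0

/-!
# Project P13, module CEO: the functionals at the origin
-/

set_option autoImplicit false

namespace Pool.Agent.Helper84.P13C

open Pool.Agent.Helper76.P13D
open Pool.Agent.Helper84.P13

private theorem nn : ∀ c ≤ 13, nOM c = nT c := by decide

private theorem qq : ∀ c ≤ 13, ∀ f : Fin 4, ∀ i ≤ 13, qOM c f.val i = qT c f.val i := by decide

private theorem nle : ∀ c ≤ 13, nT c ≤ 13 := by decide

theorem hCeO : TCeO := by
  intro c hc f t ht h0 hn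
  rw [nn c hc] at hn ⊢
  have h := ceO c hc f t ht h0 hn
  have hle := nle c hc
  rw [qq c hc f t.1 (by omega)]
  exact h

end Pool.Agent.Helper84.P13C
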