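import Pool.Agent.Helper84.P13.WxO

/-!
# Project P13, certificate CEU: the coefficients of `U` of weight at most 2
-/

set_option autoImplicit false
set_option maxRecDepth 1000000

namespace Pool.Agent.Helper84.P13

open Pool.Agent.Helper28.P13

/-- The wanted coefficients. -/
private noncomputable def wU (d : Bool) (w : Fin 12) (i k j : ℕ) : ℤ :=
  if d = true ∧ w.val = 0 ∧ i = 1 ∧ k = 0 ∧ j = 1 then 1 else 0

private theorem u00 : fastW (bX UW (mUM 0) 0 0) 2 (wU true) = true := by decide +kernel
private theorem u01 : fastW (bX UW (mUM 0) 0 1) 2 (wU false) = true := by decide +kernel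
private theorem u02 : fastW (bX UW (mUM 0) 0 2) 2 (wU false) = true := by decide +kernel
private theorem u03 : fastW (bX UW (mUM 0) 0 3) 2 (wU false) = true := by decide +kernel
private theorem u10 : fastW (bX UW (mUM 1) 1 0) 2 (wU false) = true := by decide +kernel
private theorem u11 : fastW (bX UW (mUM 1) 1 1) 2 (wU true) = true := by decide +kernel
private theorem u12 : fastW (bX UW (mUM 1) 1 2) 2 (wU false) = true := by decide +kernel
private theorem u13 : fastW (bX UW (mUM 1) 1 3) 2 (wU false) = true := by decide +kernel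
private theorem u20 : fastW (bX UW (mUM 2) 2 0) 2 (wU false) = true := by decide +kernel
private theorem u21 : fastW (bX UW (mUM 2) 2 1) 2 (wU false) = true := by decide +kernel
private theorem u22 : fastW (bX UW (mUM 2) 2 2) 2 (wU true) = true := by decide +kernel
private theorem u23 : fastW (bX UW (mUM 2) 2 3) 2 (wU false) = true := by decide +kernel
private theorem u30 : fastW (bX UW (mUM 3) 3 0) 2 (wU false) = true := by decide +kernel
private theorem u31 : fastW (bX UW (mUM 3) 3 1) 2 (wU false) = true := by decide +kernel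
private theorem u32 : fastW (bX UW (mUM 3) 3 2) 2 (wU false) = true := by decide +kernel
private theorem u33 : fastW (bX UW (mUM 3) 3 3) 2 (wU true) = true := by decide +kernel

private theorem uu : ∀ i f : Fin 4, fastW (bX UW (mUM i) i f) 2 (wU (decide (i = f))) = true := fun i f =>
  match i, f with
  | 0, 0 => u00
  | 0, 1 => u01
  | 0, 2 => u02
  | 0, 3 => u03
  | 1, 0 => u10
  | 1, 1 => u11
  | 1, 2 => u12
  | 1, 3 => u13
  | 2, 0 => u20
  | 2, 1 => u21
  | 2, 2 => u22
  | 2, 3 => u23
  | 3, 0 => u30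
  | 3, 1 => u31
  | 3, 2 => u32
  | 3, 3 => u33

theorem ceU : ∀ i f : Fin 4, ∀ w : Fin 12, ∀ t ∈ M15, t.1 + 12 * t.2.1 + t.2.2 ≤ 2 →
    (13 : ℤ) ∣ cS (BUM i f) w t.1 t.2.1 t.2.2 - (if i = f ∧ w = 0 ∧ t = (1, 0, 1) then 1 else 0) := by
  intro i f w t ht hn
  have h := cS_fastW _ 2 _ (uu i f) w t ht hn
  rw [bX_toL] at h
  have e : wU (decide (i = f)) w t.1 t.2.1 t.2.2 = (if i = f ∧ w = 0 ∧ t = (1, 0, 1) then 1 else 0) := by
    unfold wU
    have hw : (w.val = 0) = (w = 0) := propext ⟨fun h => Fin.ext h, fun h => by rw [h]; rfl⟩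
    obtain ⟨a, k, b⟩ := t
    simp only [decide_eq_true_eq, hw, Prod.mk.injEq]
  rw [← e]
  exact h

end Pool.Agent.Helper84.P13
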