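import Pool.Agent.Helper2.P13.StP

/-!
# Project P13, module LIFP: lifting solutions of the relations to the integers
-/

set_option autoImplicit false

namespace Pool.Agent.Helper84.P13.LifpM

open Pool.Agent.Helper84.P13 Pool.Agent.Helper2.P13

private abbrev Pq (r s : ℕ) : Type := ZMod (13 ^ r) × ZMod (13 ^ s)

private def mu {r s : ℕ} (a b c d : ℤ) (p : Pq r s) : Pq r s :=
  tr13 a b c d (fun x y => ((x, y) : Pq r s)) p.1 p.2

private theorem mu_mul (hTrm : S13Trm) {r s : ℕ} {a b c d a' b' c' d' : ℤ} (h1 : ¬ 13 ∣ a)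
    (h2 : ¬ 13 ∣ d) (h3 : ¬ 13 ∣ a') (h4 : ¬ 13 ∣ d') (p : Pq r s) :
    mu a' b' c' d' (mu a b c d p) =
      mu (a * a' + 13 * b * c') (a * b' + b * d') (c * a' + d * c') (13 * c * b' + d * d') p := by
  have h := congrFun (congrFun ((hTrm (Pq r s) r s (fun x y => (x, y))).1 a b c d a' b' c' d'
    h1 h2 h3 h4) p.1) p.2
  exact h

private theorem mu_one (hTrm : S13Trm) {r s : ℕ} (p : Pq r s) : mu 1 0 0 1 p = p := by
  have h := congrFun (congrFun (hTrm (Pq r s) r s (fun x y => (x, y))).2.1 p.1) p.2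
  exact h

private theorem mu_neg (hTrm : S13Trm) {r s : ℕ} {a b c d : ℤ} (h1 : ¬ 13 ∣ a) (h2 : ¬ 13 ∣ d)
    (p : Pq r s) : mu (-a) (-b) (-c) (-d) p = mu a b c d p := by
  have h := congrFun (congrFun ((hTrm (Pq r s) r s (fun x y => (x, y))).2.2 (-1) a b c d
    (by norm_num) h1 h2) p.1) p.2
  simp only [neg_one_mul] at h
  exact h

private theorem res {a b c d : ℤ} (h : a * d - 13 * b * c = 1) : ¬ 13 ∣ a ∧ ¬ 13 ∣ d := by
  constructor
  · rintro ⟨k, rfl⟩
    have : 13 * (k * d) - 13 * (b * c) = 1 := by linear_combination h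
    omega
  · rintro ⟨k, rfl⟩
    have : 13 * (a * k) - 13 * (b * c) = 1 := by linear_combination h
    omega

private theorem mu_inv (hTrm : S13Trm) {r s : ℕ} {a b c d : ℤ} (h : a * d - 13 * b * c = 1)
    (p : Pq r s) : mu d (-b) (-c) a (mu a b c d p) = p := by
  obtain ⟨h1, h2⟩ := res h
  rw [mu_mul hTrm h1 h2 h2 h1]
  have e1 : a * d + 13 * b * -c = 1 := by linear_combination h
  have e2 : a * -b + b * a = 0 := by ring
  have e3 : c * d + d * -c = 0 := by ring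
  have e4 : 13 * c * -b + d * a = 1 := by linear_combination h
  rw [e1, e2, e3, e4, mu_one hTrm]

private theorem mu_bij (hTrm : S13Trm) {r s : ℕ} {a b c d : ℤ} (h : a * d - 13 * b * c = 1) :
    Function.Bijective (mu a b c d : Pq r s → Pq r s) := by
  refine Function.bijective_iff_has_inverse.2 ⟨mu d (-b) (-c) a, fun p => mu_inv hTrm h p,
    fun p => ?_⟩
  have := mu_inv hTrm (r := r) (s := s) (a := d) (b := -b) (c := -c) (d := a)
    (by linear_combination h) p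
  rw [neg_neg, neg_neg] at this
  exact this

private instance fin_pt (r s : ℕ) : Fintype (Pq r s) := by
  have : NeZero (13 ^ r) := ⟨by positivity⟩
  have : NeZero (13 ^ s) := ⟨by positivity⟩
  infer_instance

/-- `T`, `ρ1`, `β`, `α`, `ρ2`, and `B` on points. -/
private def mT {r s : ℕ} : Pq r s → Pq r s := mu 1 1 0 1
private def m1 {r s : ℕ} : Pq r s → Pq r s := mu 4 (-1) 1 (-3)
private def mb {r s : ℕ} : Pq r s → Pq r s := mu 5 (-2) 1 (-5)
private def ma {r s : ℕ} : Pq r s → Pq r s := mu 8 (-5) 1 (-8)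
private def m2 {r s : ℕ} : Pq r s → Pq r s := mu 10 (-7) 1 (-9)
private def mB {r s : ℕ} : Pq r s → Pq r s := mu 1 0 1 1

private theorem bT (hTrm : S13Trm) {r s : ℕ} : Function.Bijective (mT : Pq r s → Pq r s) :=
  mu_bij hTrm (by norm_num)
private theorem b1 (hTrm : S13Trm) {r s : ℕ} : Function.Bijective (m1 : Pq r s → Pq r s) :=
  mu_bij hTrm (by norm_num)
private theorem bb (hTrm : S13Trm) {r s : ℕ} : Function.Bijective (mb : Pq r s → Pq r s) :=
  mu_bij hTrm (by norm_num)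
private theorem ba (hTrm : S13Trm) {r s : ℕ} : Function.Bijective (ma : Pq r s → Pq r s) :=
  mu_bij hTrm (by norm_num)
private theorem b2 (hTrm : S13Trm) {r s : ℕ} : Function.Bijective (m2 : Pq r s → Pq r s) :=
  mu_bij hTrm (by norm_num)

private theorem neg_one (hTrm : S13Trm) {r s : ℕ} (p : Pq r s) : mu (-1) 0 0 (-1) p = p := by
  have h := mu_neg hTrm (a := 1) (b := 0) (c := 0) (d := 1) (by norm_num) (by norm_num) p
  rw [mu_one hTrm] at h
  norm_num at h
  exact h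

private theorem m11 (hTrm : S13Trm) {r s : ℕ} (p : Pq r s) : m1 (m1 p) = mu 3 (-1) 1 (-4) p := by
  unfold m1
  rw [mu_mul hTrm (by norm_num) (by norm_num) (by norm_num) (by norm_num)]
  norm_num

private theorem m111 (hTrm : S13Trm) {r s : ℕ} (p : Pq r s) : m1 (m1 (m1 p)) = p := by
  rw [m11 hTrm]
  unfold m1
  rw [mu_mul hTrm (by norm_num) (by norm_num) (by norm_num) (by norm_num)]
  norm_num
  exact neg_one hTrm p

private theorem m22 (hTrm : S13Trm) {r s : ℕ} (p : Pq r s) : m2 (m2 p) = mu 9 (-7) 1 (-10) p := by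
  unfold m2
  rw [mu_mul hTrm (by norm_num) (by norm_num) (by norm_num) (by norm_num)]
  norm_num

private theorem m222 (hTrm : S13Trm) {r s : ℕ} (p : Pq r s) : m2 (m2 (m2 p)) = p := by
  rw [m22 hTrm]
  unfold m2
  rw [mu_mul hTrm (by norm_num) (by norm_num) (by norm_num) (by norm_num)]
  norm_num
  exact neg_one hTrm p

private theorem mbb (hTrm : S13Trm) {r s : ℕ} (p : Pq r s) : mb (mb p) = p := by
  unfold mb
  rw [mu_mul hTrm (by norm_num) (by norm_num) (by norm_num) (by norm_num)]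
  norm_num
  exact neg_one hTrm p

private theorem maa (hTrm : S13Trm) {r s : ℕ} (p : Pq r s) : ma (ma p) = p := by
  unfold ma
  rw [mu_mul hTrm (by norm_num) (by norm_num) (by norm_num) (by norm_num)]
  norm_num
  exact neg_one hTrm p

private theorem mBw (hTrm : S13Trm) {r s : ℕ} (p : Pq r s) :
    mT (m2 (m2 (ma (mb (m1 (m1 p)))))) = mB p := by
  rw [m22 hTrm, m11 hTrm]
  unfold ma mb mT mB
  rw [mu_mul hTrm (by norm_num) (by norm_num) (by norm_num) (by norm_num),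
    mu_mul hTrm (by norm_num) (by norm_num) (by norm_num) (by norm_num),
    mu_mul hTrm (by norm_num) (by norm_num) (by norm_num) (by norm_num),
    mu_mul hTrm (by norm_num) (by norm_num) (by norm_num) (by norm_num)]
  norm_num

/-- the defect of the relation -/
private def cob (r s : ℕ) : (Fin 5 → Pq r s → ℤ) →+ (Pq r s → ℤ) where
  toFun H := fun p => H 0 p - H 0 (mT p) - (H 1 p - H 1 (m1 p)) - (H 2 p - H 2 (mb p)) -
    (H 3 p - H 3 (ma p)) - (H 4 p - H 4 (m2 p))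
  map_zero' := by funext p; simp
  map_add' H K := by funext p; simp only [Pi.add_apply]; ring

private noncomputable def dlt {r s : ℕ} (p : Pq r s) : Pq r s → ℤ := by
  classical exact Pi.single p 1

private theorem dlt_app {r s : ℕ} (p q : Pq r s) [Decidable (q = p)] :
    dlt p q = if q = p then 1 else 0 := by
  classical
  unfold dlt
  rw [Pi.single_apply]
  congr

private def Eqp {r s : ℕ} (p q : Pq r s) : Prop := dlt p - dlt q ∈ (cob r s).range

private theorem Eqp.rfl' {r s : ℕ} (p : Pq r s) : Eqp p p := by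
  unfold Eqp; rw [sub_self]; exact zero_mem _

private theorem Eqp.sym {r s : ℕ} {p q : Pq r s} (h : Eqp p q) : Eqp q p := by
  unfold Eqp at *; have := neg_mem h; rwa [neg_sub] at this

private theorem Eqp.trs {r s : ℕ} {p q t : Pq r s} (h : Eqp p q) (h' : Eqp q t) : Eqp p t := by
  unfold Eqp at *; have := add_mem h h'; rwa [sub_add_sub_cancel] at this

private theorem dlt_inj {r s : ℕ} {f : Pq r s → Pq r s} (hf : Function.Injective f)
    (p q : Pq r s) : dlt (f p) (f q) = dlt p q := by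
  classical
  rw [dlt_app, dlt_app]
  simp [hf.eq_iff]

private theorem eT (hTrm : S13Trm) {r s : ℕ} (p : Pq r s) : Eqp (mT p) p := by
  refine ⟨![dlt (mT p), 0, 0, 0, 0], ?_⟩
  funext q
  simp [cob, dlt_inj (bT hTrm).1 p q]

private theorem e1 (hTrm : S13Trm) {r s : ℕ} (p : Pq r s) : Eqp (m1 p) p := by
  refine ⟨![0, -dlt (m1 p), 0, 0, 0], ?_⟩
  funext q
  simp [cob, dlt_inj (b1 hTrm).1 p q]
  ring

private theorem eb (hTrm : S13Trm) {r s : ℕ} (p : Pq r s) : Eqp (mb p) p := by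
  refine ⟨![0, 0, -dlt (mb p), 0, 0], ?_⟩
  funext q
  simp [cob, dlt_inj (bb hTrm).1 p q]
  ring

private theorem ea (hTrm : S13Trm) {r s : ℕ} (p : Pq r s) : Eqp (ma p) p := by
  refine ⟨![0, 0, 0, -dlt (ma p), 0], ?_⟩
  funext q
  simp [cob, dlt_inj (ba hTrm).1 p q]
  ring

private theorem e2 (hTrm : S13Trm) {r s : ℕ} (p : Pq r s) : Eqp (m2 p) p := by
  refine ⟨![0, 0, 0, 0, -dlt (m2 p)], ?_⟩
  funext q
  simp [cob, dlt_inj (b2 hTrm).1 p q]
  ring

private theorem eB (hTrm : S13Trm) {r s : ℕ} (p : Pq r s) : Eqp (mB p) p := by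
  rw [← mBw hTrm p]
  exact ((((((eT hTrm _).trs (e2 hTrm _)).trs (e2 hTrm _)).trs (ea hTrm _)).trs (eb hTrm _)).trs
    (e1 hTrm _)).trs (e1 hTrm _)

private theorem eqp_y (hTrm : S13Trm) {r s : ℕ} : ∀ (n : ℕ),
    Eqp ((0, (n : ZMod (13 ^ s))) : Pq r s) (0, 0) := by
  intro n
  induction n with
  | zero => rw [Nat.cast_zero]; exact Eqp.rfl' _
  | succ n ih =>
    have h := eB hTrm ((0, (n : ZMod (13 ^ s))) : Pq r s)
    have e : mB ((0, (n : ZMod (13 ^ s))) : Pq r s) = (0, ((n + 1 : ℕ) : ZMod (13 ^ s))) := by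
      have h1 : ((1 : ZMod (13 ^ s)))⁻¹ = 1 := ZMod.inv_eq_of_mul_eq_one _ _ _ (by ring)
      simp [mB, mu, tr13, h1]
      ring
    rw [e] at h
    exact h.trs ih

private theorem eqp_x (hTrm : S13Trm) {r s : ℕ} : ∀ (n : ℕ) (x : ZMod (13 ^ r)) (y : ZMod (13 ^ s)),
    x + n = 0 → Eqp ((x, y) : Pq r s) (0, 0) := by
  intro n
  induction n with
  | zero =>
    intro x y h
    have : NeZero (13 ^ s) := ⟨by positivity⟩
    rw [Nat.cast_zero, add_zero] at h
    subst h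
    have := eqp_y hTrm (r := r) (s := s) y.val
    rwa [ZMod.natCast_zmod_val] at this
  | succ n ih =>
    intro x y h
    have h1 := eT hTrm ((x, y) : Pq r s)
    refine h1.sym.trs ?_
    have h2 : (mT ((x, y) : Pq r s)).1 = x + 1 := by
      have h1 : ((1 : ZMod (13 ^ r)))⁻¹ = 1 := ZMod.inv_eq_of_mul_eq_one _ _ _ (by ring)
      simp [mT, mu, tr13, h1, add_comm]
    have h3 : mT ((x, y) : Pq r s) = (x + 1, (mT ((x, y) : Pq r s)).2) := by
      rw [← h2]
    rw [h3]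
    apply ih
    rw [← h]
    push_cast
    ring

private theorem eqp_all (hTrm : S13Trm) {r s : ℕ} (p : Pq r s) : Eqp p (0, 0) := by
  have : NeZero (13 ^ r) := ⟨by positivity⟩
  exact eqp_x hTrm (-p.1).val p.1 p.2 (by rw [ZMod.natCast_zmod_val]; ring)

private theorem mem_of_sum (hTrm : S13Trm) {r s : ℕ} (E : Pq r s → ℤ) (hE : ∑ p, E p = 0) :
    E ∈ (cob r s).range := by
  classical
  have h1 : E = ∑ p, E p • (dlt p - dlt (0, 0)) := by
    have h2 : ∑ p, E p • (dlt p - dlt ((0, 0) : Pq r s)) =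
        ∑ p, E p • dlt p - (∑ p, E p) • dlt ((0, 0) : Pq r s) := by
      rw [Finset.sum_smul, ← Finset.sum_sub_distrib]
      exact Finset.sum_congr rfl fun p _ => smul_sub _ _ _
    rw [h2, hE, zero_smul, sub_zero]
    funext q
    rw [Finset.sum_apply]
    simp [dlt_app]
  rw [h1]
  exact sum_mem fun p _ => zsmul_mem (eqp_all hTrm p) _

private theorem sum_cob (hTrm : S13Trm) {r s : ℕ} (H : Fin 5 → Pq r s → ℤ) :
    ∑ p, cob r s H p = 0 := by
  have hT := (bT hTrm (r := r) (s := s)).sum_comp (H 0)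
  have h1 := (b1 hTrm (r := r) (s := s)).sum_comp (H 1)
  have h2 := (bb hTrm (r := r) (s := s)).sum_comp (H 2)
  have h3 := (ba hTrm (r := r) (s := s)).sum_comp (H 3)
  have h4 := (b2 hTrm (r := r) (s := s)).sum_comp (H 4)
  show ∑ p, (H 0 p - H 0 (mT p) - (H 1 p - H 1 (m1 p)) - (H 2 p - H 2 (mb p)) -
    (H 3 p - H 3 (ma p)) - (H 4 p - H 4 (m2 p))) = 0
  simp only [Finset.sum_sub_distrib]
  rw [hT, h1, h2, h3, h4]
  ring

/-- Integral solutions of the single equation which lift given functions modulo 13. -/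
private theorem lift_eq (hm : S13Trm) {r s : ℕ} (g : Fin 5 → Pq r s → ZMod 13)
    (hg : ∀ p, g 0 p - g 0 (mT p) - (g 1 p - g 1 (m1 p)) - (g 2 p - g 2 (mb p)) -
      (g 3 p - g 3 (ma p)) - (g 4 p - g 4 (m2 p)) = 0) :
    ∃ F : Fin 5 → Pq r s → ℤ, (∀ p, F 0 p - F 0 (mT p) - (F 1 p - F 1 (m1 p)) -
      (F 2 p - F 2 (mb p)) - (F 3 p - F 3 (ma p)) - (F 4 p - F 4 (m2 p)) = 0) ∧
      ∀ i p, ((F i p : ℤ) : ZMod 13) = g i p := by
  let L : Fin 5 → Pq r s → ℤ := fun i p => ((g i p).val : ℤ)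
  have hL : ∀ i p, ((L i p : ℤ) : ZMod 13) = g i p := by
    intro i p
    show ((((g i p).val : ℤ)) : ZMod 13) = _
    push_cast
    exact ZMod.natCast_zmod_val _
  have h7 : (13 : ZMod 13) = 0 := by decide
  have h3 : ∀ p, (13 : ℤ) ∣ cob r s L p := by
    intro p
    apply (ZMod.intCast_zmod_eq_zero_iff_dvd _ 13).1
    show ((L 0 p - L 0 (mT p) - (L 1 p - L 1 (m1 p)) - (L 2 p - L 2 (mb p)) -
      (L 3 p - L 3 (ma p)) - (L 4 p - L 4 (m2 p)) : ℤ) : ZMod 13) = 0
    push_cast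
    rw [hL, hL, hL, hL, hL, hL, hL, hL, hL, hL]
    exact hg p
  choose D hD using h3
  have hs : ∑ p, D p = 0 := by
    have h := sum_cob hm L
    rw [Finset.sum_congr rfl fun p _ => hD p, ← Finset.mul_sum] at h
    omega
  obtain ⟨H, hH⟩ := mem_of_sum hm D hs
  refine ⟨fun i p => L i p - 13 * H i p, ?_, ?_⟩
  · intro p
    have h1 := hD p
    have h2 := congrFun hH p
    have e1 : cob r s L p = L 0 p - L 0 (mT p) - (L 1 p - L 1 (m1 p)) - (L 2 p - L 2 (mb p)) -
      (L 3 p - L 3 (ma p)) - (L 4 p - L 4 (m2 p)) := rfl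
    have e2 : cob r s H p = H 0 p - H 0 (mT p) - (H 1 p - H 1 (m1 p)) - (H 2 p - H 2 (mb p)) -
      (H 3 p - H 3 (ma p)) - (H 4 p - H 4 (m2 p)) := rfl
    rw [e1] at h1
    rw [e2] at h2
    show (L 0 p - 13 * H 0 p) - (L 0 (mT p) - 13 * H 0 (mT p)) -
      ((L 1 p - 13 * H 1 p) - (L 1 (m1 p) - 13 * H 1 (m1 p))) -
      ((L 2 p - 13 * H 2 p) - (L 2 (mb p) - 13 * H 2 (mb p))) -
      ((L 3 p - 13 * H 3 p) - (L 3 (ma p) - 13 * H 3 (ma p))) -
      ((L 4 p - 13 * H 4 p) - (L 4 (m2 p) - 13 * H 4 (m2 p))) = 0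
    linear_combination h1 - 13 * h2
  · intro i p
    show ((L i p - 13 * H i p : ℤ) : ZMod 13) = g i p
    push_cast
    rw [hL, h7, zero_mul, sub_zero]

theorem hLifp (hm : S13Trm) (hs : S13Sol) (hr : S13Sor) : S13Lifp := by
  intro r s f hf
  obtain ⟨a, b, c, e, h1, h2, h3, h4⟩ := hs r s f hf
  obtain ⟨F, hF, hFg⟩ := lift_eq hm (r := r) (s := s)
    (![fun p => f 0 p.1 p.2, fun p => a p.1 p.2, fun p => b p.1 p.2, fun p => c p.1 p.2,
      fun p => e p.1 p.2] : Fin 5 → Pq r s → ZMod 13) (by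
    intro p
    have k1 := h1 p.1 p.2
    have k2 := h2 p.1 p.2
    have k3 := h3 p.1 p.2
    have k4 := h4 p.1 p.2
    have k1' : f 1 p.1 p.2 = a p.1 p.2 - a (m1 p).1 (m1 p).2 := k1
    have k2' : f 2 p.1 p.2 = b p.1 p.2 - b (mb p).1 (mb p).2 := k2
    have k3' : f 3 p.1 p.2 = c p.1 p.2 - c (ma p).1 (ma p).2 := k3
    have k4' : f 0 p.1 p.2 - f 0 (mT p).1 (mT p).2 - f 1 p.1 p.2 - f 2 p.1 p.2 - f 3 p.1 p.2 =
      e p.1 p.2 - e (m2 p).1 (m2 p).2 := k4
    show f 0 p.1 p.2 - f 0 (mT p).1 (mT p).2 - (a p.1 p.2 - a (m1 p).1 (m1 p).2) -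
      (b p.1 p.2 - b (mb p).1 (mb p).2) - (c p.1 p.2 - c (ma p).1 (ma p).2) -
      (e p.1 p.2 - e (m2 p).1 (m2 p).2) = 0
    rw [← k1', ← k2', ← k3', ← k4']
    ring)
  refine ⟨_, hr ℤ inferInstance r s (fun x y => F 0 (x, y)) (fun x y => F 1 (x, y))
    (fun x y => F 2 (x, y)) (fun x y => F 3 (x, y)) (fun x y => F 4 (x, y))
    (fun x y => hF (x, y)), ?_⟩
  intro i x y
  fin_cases i
  · exact hFg 0 (x, y)
  · have k1 := h1 x y
    show ((F 1 (x, y) - F 1 (m1 (x, y)) : ℤ) : ZMod 13) = f 1 x y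
    rw [k1, Int.cast_sub, hFg 1 (x, y), hFg 1 (m1 (x, y))]
    rfl
  · have k1 := h2 x y
    show ((F 2 (x, y) - F 2 (mb (x, y)) : ℤ) : ZMod 13) = f 2 x y
    rw [k1, Int.cast_sub, hFg 2 (x, y), hFg 2 (mb (x, y))]
    rfl
  · have k1 := h3 x y
    show ((F 3 (x, y) - F 3 (ma (x, y)) : ℤ) : ZMod 13) = f 3 x y
    rw [k1, Int.cast_sub, hFg 3 (x, y), hFg 3 (ma (x, y))]
    rfl

end Pool.Agent.Helper84.P13.LifpM

namespace Pool.Agent.Helper84.P13

/-- Module LIFP. -/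
theorem hLifp (hm : S13Trm) (hs : Pool.Agent.Helper2.P13.S13Sol)
    (hr : Pool.Agent.Helper2.P13.S13Sor) : Pool.Agent.Helper2.P13.S13Lifp := LifpM.hLifp hm hs hr

end Pool.Agent.Helper84.P13
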