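import Pool.Agent.Helper81.P13.FastE

/-!
# Project P13: fast checks for the coefficients of small weight, and for their sums over the classes
-/

set_option autoImplicit false
set_option exponentiation.threshold 200000

namespace Pool.Agent.Helper84.P13

open Pool.Agent.Helper81.P13 (Ex sq sq_eq dg rk rk_eq sumE fastE cS_fastE chk S12 M15L)

/-- Comparison of the digits of weight at most `n`. -/
noncomputable def chkW (N n : ℕ) (want : Fin 12 → ℕ → ℕ → ℕ → ℤ) : Bool :=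
  ([0, 1, 2, 3, 4, 5, 6, 7, 8, 9, 10, 11] : List (Fin 12)).all fun w =>
    M15L.all fun t => Nat.ble (n + 1) (Nat.add t.1 (Nat.add (Nat.mul 12 t.2.1) t.2.2)) ||
      Nat.beq (Nat.mod (dg N w.val t.2.1 t.2.2 t.1) 13) (rk (want w t.1 t.2.1 t.2.2))

/-- The check in weight at most `n`. -/
noncomputable def fastW (e : Ex) (n : ℕ) (want : Fin 12 → ℕ → ℕ → ℕ → ℤ) : Bool :=
  and (and e.gd (Nat.ble e.cnt 131072)) (sq (sumE e 1) fun N => chkW N n want)

/-- Comparison of the sums of the digits over the classes, weight at most `n`. -/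
noncomputable def chkO (N n : ℕ) (q : ℕ → ℤ) : Bool :=
  M15L.all fun t => (Nat.ble (n + 1) (Nat.add t.1 (Nat.add (Nat.mul 12 t.2.1) t.2.2)) ||
    (Nat.ble 1 t.2.1 && Nat.beq t.1 0)) ||
    Nat.beq (Nat.mod (S12 fun w => dg N w t.2.1 t.2.2 t.1) 13)
      (rk (if t.2.1 = 0 ∧ t.1 + t.2.2 = n then q t.1 else 0))

/-- The check of the sums over the classes. -/
noncomputable def fastO (e : Ex) (n : ℕ) (q : ℕ → ℤ) : Bool :=
  and (and e.gd (Nat.ble e.cnt 131072)) (sq (sumE e 1) fun N => chkO N n q)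

private theorem m15 : ∀ t ∈ M15, t ∈ M15L := by
  decide +kernel

/-- The digits are the coefficients modulo 13. -/
private theorem base (e : Ex) (h : and e.gd (Nat.ble e.cnt 131072) = true) :
    ∀ w : Fin 12, ∀ t ∈ M15, (13 : ℤ) ∣ cS e.toL w t.1 t.2.1 t.2.2 -
      ((dg (sumE e 1) w.val t.2.1 t.2.2 t.1 : ℕ) : ℤ) := by
  have h0 : fastE e (fun w i k j => ((dg (sumE e 1) w.val k j i : ℕ) : ℤ)) = true := by
    unfold fastE
    rw [h, sq_eq, Bool.true_and]
    unfold chk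
    rw [List.all_eq_true]
    intro w _
    rw [List.all_eq_true]
    intro t _
    exact Nat.beq_refl _
  exact cS_fastE e _ h0

/-- The check in weight at most `n` is correct. -/
theorem cS_fastW (e : Ex) (n : ℕ) (want : Fin 12 → ℕ → ℕ → ℕ → ℤ) (h : fastW e n want = true) :
    ∀ w : Fin 12, ∀ t ∈ M15, t.1 + 12 * t.2.1 + t.2.2 ≤ n →
      (13 : ℤ) ∣ cS e.toL w t.1 t.2.1 t.2.2 - want w t.1 t.2.1 t.2.2 := by
  intro w t ht hn
  unfold fastW at h
  rw [Bool.and_eq_true, sq_eq] at h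
  obtain ⟨h1, h2⟩ := h
  have hb := base e h1 w t ht
  unfold chkW at h2
  rw [List.all_eq_true] at h2
  have h3 := h2 w (by fin_cases w <;> simp)
  rw [List.all_eq_true] at h3
  have h4 := h3 t (m15 t ht)
  rw [Bool.or_eq_true] at h4
  have h5 : dg (sumE e 1) w.val t.2.1 t.2.2 t.1 % 13 = rk (want w t.1 t.2.1 t.2.2) := by
    rcases h4 with h4 | h4
    · exfalso
      have h6 : n + 1 ≤ t.1 + (12 * t.2.1 + t.2.2) := Nat.le_of_ble_eq_true h4
      omega
    · exact Nat.eq_of_beq_eq_true h4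
  have h6 := rk_eq (want w t.1 t.2.1 t.2.2)
  rw [← h5] at h6
  generalize dg (sumE e 1) w.val t.2.1 t.2.2 t.1 = D at hb h6
  generalize want w t.1 t.2.1 t.2.2 = W at h6 ⊢
  generalize cS e.toL w t.1 t.2.1 t.2.2 = C at hb ⊢
  push_cast at h6
  omega

private theorem s12 (f : ℕ → ℕ) : ((S12 f : ℕ) : ℤ) = ∑ w : Fin 12, ((f w.val : ℕ) : ℤ) := by
  have h : S12 f = ∑ w : Fin 12, f w.val := by
    simp only [Fin.sum_univ_succ, Fin.sum_univ_zero]
    rfl
  rw [h]
  push_cast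
  rfl

/-- The check of the sums over the classes is correct. -/
theorem cO_fastO (e : Ex) (n : ℕ) (q : ℕ → ℤ) (h : fastO e n q = true) :
    ∀ t ∈ M15, (t.2.1 = 0 ∨ t.1 ≠ 0) → t.1 + 12 * t.2.1 + t.2.2 ≤ n →
      (13 : ℤ) ∣ (∑ w : Fin 12, cS e.toL w t.1 t.2.1 t.2.2) -
        (if t.2.1 = 0 ∧ t.1 + t.2.2 = n then q t.1 else 0) := by
  intro t ht h0 hn
  unfold fastO at h
  rw [Bool.and_eq_true, sq_eq] at h
  obtain ⟨h1, h2⟩ := h
  have hb : ∀ w : Fin 12, (13 : ℤ) ∣ cS e.toL w t.1 t.2.1 t.2.2 -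
      ((dg (sumE e 1) w.val t.2.1 t.2.2 t.1 : ℕ) : ℤ) := fun w => base e h1 w t ht
  have hs : (13 : ℤ) ∣ (∑ w : Fin 12, cS e.toL w t.1 t.2.1 t.2.2) -
      ((S12 fun w => dg (sumE e 1) w t.2.1 t.2.2 t.1 : ℕ) : ℤ) := by
    rw [s12, ← Finset.sum_sub_distrib]
    exact Finset.dvd_sum fun w _ => hb w
  unfold chkO at h2
  rw [List.all_eq_true] at h2
  have h4 := h2 t (m15 t ht)
  rw [Bool.or_eq_true, Bool.or_eq_true, Bool.and_eq_true] at h4
  have h5 : (S12 fun w => dg (sumE e 1) w t.2.1 t.2.2 t.1) % 13 =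
      rk (if t.2.1 = 0 ∧ t.1 + t.2.2 = n then q t.1 else 0) := by
    rcases h4 with (h4 | ⟨h4, h4'⟩) | h4
    · exfalso
      have h6 : n + 1 ≤ t.1 + (12 * t.2.1 + t.2.2) := Nat.le_of_ble_eq_true h4
      omega
    · exfalso
      have h6 : 1 ≤ t.2.1 := Nat.le_of_ble_eq_true h4
      have h7 : t.1 = 0 := Nat.eq_of_beq_eq_true h4'
      omega
    · exact Nat.eq_of_beq_eq_true h4
  have h6 := rk_eq (if t.2.1 = 0 ∧ t.1 + t.2.2 = n then q t.1 else 0)
  rw [← h5] at h6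
  generalize (S12 fun w => dg (sumE e 1) w t.2.1 t.2.2 t.1) = D at hs h6
  generalize (if t.2.1 = 0 ∧ t.1 + t.2.2 = n then q t.1 else 0 : ℤ) = W at h6 ⊢
  generalize (∑ w : Fin 12, cS e.toL w t.1 t.2.1 t.2.2) = C at hs ⊢
  push_cast at h6
  omega

end Pool.Agent.Helper84.P13
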