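import Pool.Agent.Helper84.P13.WxO

/-!
# Project P13, certificate CEO: the table
-/

set_option autoImplicit false
set_option maxRecDepth 1000000

namespace Pool.Agent.Helper84.P13

open Pool.Agent.Helper28.P13

/-- The degrees. -/
def nT (c : ℕ) : ℕ := ([0, 1, 2, 4, 5, 7, 4, 6, 8, 10, 10, 12, 12, 13] : List ℕ).getD c 13

/-- The coefficients of `X^(n - i) Y^i`. -/
def qT (c f i : ℕ) : ℤ :=
  ((([[[1], [], [], []], [[], [], [3, 1], [3, 1]], [[5], [9, 0, 1], [], []], [[11], [3, 0, 0, 0, 1], [], []], [[], [], [9, 0, 0, 0, 0, 1], [9, 0, 0, 0, 0, 1]], [[], [], [3, 0, 0, 0, 0, 0, 0, 1], [3, 0, 0, 0, 0, 0, 0, 1]], [[0, 1, 0, 1], [], [], []], [[0, 1, 0, 0, 0, 1], [], [], []], [[0, 1, 0, 0, 0, 0, 0, 1], [], [], []], [[0, 1, 0, 0, 0, 0, 0, 0, 0, 1], [], [], []], [[0, 5], [0, 9, 0, 0, 0, 0, 0, 0, 0, 1], [], []], [[0, 1, 0, 0, 0, 0, 0, 0, 0, 0, 0,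 1], [], [], []], [[0, 11], [0, 3, 0, 0, 0, 0, 0, 0, 0, 0, 0, 1], [], []], [[], [], [3, 5, 0, 0, 0, 0, 0, 0, 0, 0, 0, 0, 2, 1], [3, 5, 0, 0, 0, 0, 0, 0, 0, 0, 0, 0, 2, 1]]] :
    List (List (List ℤ))).getD c []).getD f []).getD i 0

end Pool.Agent.Helper84.P13
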