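import Pool.Agent.Helper84.P13.P_CeO

/-!
# Project P13, certificate CEO, part a
-/

set_option autoImplicit false
set_option maxRecDepth 1000000

namespace Pool.Agent.Helper84.P13

open Pool.Agent.Helper28.P13

theorem o0_0 : fastO (bX (OW 0) (mOM 0) 0 0) (nT 0) (qT 0 0) = true := by decide +kernel

theorem o0_1 : fastO (bX (OW 0) (mOM 0) 0 1) (nT 0) (qT 0 1) = true := by decide +kernel

theorem o0_2 : fastO (bX (OW 0) (mOM 0) 0 2) (nT 0) (qT 0 2) = true := by decide +kernel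

theorem o0_3 : fastO (bX (OW 0) (mOM 0) 0 3) (nT 0) (qT 0 3) = true := by decide +kernel

theorem o1_0 : fastO (bX (OW 1) (mOM 1) 0 0) (nT 1) (qT 1 0) = true := by decide +kernel

theorem o1_1 : fastO (bX (OW 1) (mOM 1) 0 1) (nT 1) (qT 1 1) = true := by decide +kernel

theorem o1_2 : fastO (bX (OW 1) (mOM 1) 0 2) (nT 1) (qT 1 2) = true := by decide +kernel

theorem o1_3 : fastO (bX (OW 1) (mOM 1) 0 3) (nT 1) (qT 1 3) = true := by decide +kernel

theorem o2_0 : fastO (bX (OW 2) (mOM 2) 0 0) (nT 2) (qT 2 0) = true := by decide +kernel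

theorem o2_1 : fastO (bX (OW 2) (mOM 2) 0 1) (nT 2) (qT 2 1) = true := by decide +kernel

theorem o2_2 : fastO (bX (OW 2) (mOM 2) 0 2) (nT 2) (qT 2 2) = true := by decide +kernel

theorem o2_3 : fastO (bX (OW 2) (mOM 2) 0 3) (nT 2) (qT 2 3) = true := by decide +kernel

theorem o3_0 : fastO (bX (OW 3) (mOM 3) 0 0) (nT 3) (qT 3 0) = true := by decide +kernel

theorem o3_1 : fastO (bX (OW 3) (mOM 3) 0 1) (nT 3) (qT 3 1) = true := by decide +kernel

theorem o3_2 : fastO (bX (OW 3) (mOM 3) 0 2) (nT 3) (qT 3 2) = true := by decide +kernel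

theorem o3_3 : fastO (bX (OW 3) (mOM 3) 0 3) (nT 3) (qT 3 3) = true := by decide +kernel

theorem o4_0 : fastO (bX (OW 4) (mOM 4) 0 0) (nT 4) (qT 4 0) = true := by decide +kernel

theorem o4_1 : fastO (bX (OW 4) (mOM 4) 0 1) (nT 4) (qT 4 1) = true := by decide +kernel

theorem o4_2 : fastO (bX (OW 4) (mOM 4) 0 2) (nT 4) (qT 4 2) = true := by decide +kernel

theorem o4_3 : fastO (bX (OW 4) (mOM 4) 0 3) (nT 4) (qT 4 3) = true := by decide +kernel

theorem o5_0 : fastO (bX (OW 5) (mOM 5) 0 0) (nT 5) (qT 5 0) = true := by decide +kernel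

theorem o5_1 : fastO (bX (OW 5) (mOM 5) 0 1) (nT 5) (qT 5 1) = true := by decide +kernel

theorem o5_2 : fastO (bX (OW 5) (mOM 5) 0 2) (nT 5) (qT 5 2) = true := by decide +kernel

theorem o5_3 : fastO (bX (OW 5) (mOM 5) 0 3) (nT 5) (qT 5 3) = true := by decide +kernel

theorem o6_0 : fastO (bX (OW 6) (mOM 6) 0 0) (nT 6) (qT 6 0) = true := by decide +kernel

theorem o6_1 : fastO (bX (OW 6) (mOM 6) 0 1) (nT 6) (qT 6 1) = true := by decide +kernel

theorem o6_2 : fastO (bX (OW 6) (mOM 6) 0 2) (nT 6) (qT 6 2) = true := by decide +kernel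

theorem o6_3 : fastO (bX (OW 6) (mOM 6) 0 3) (nT 6) (qT 6 3) = true := by decide +kernel

theorem o7_0 : fastO (bX (OW 7) (mOM 7) 0 0) (nT 7) (qT 7 0) = true := by decide +kernel

theorem o7_1 : fastO (bX (OW 7) (mOM 7) 0 1) (nT 7) (qT 7 1) = true := by decide +kernel

theorem o7_2 : fastO (bX (OW 7) (mOM 7) 0 2) (nT 7) (qT 7 2) = true := by decide +kernel

theorem o7_3 : fastO (bX (OW 7) (mOM 7) 0 3) (nT 7) (qT 7 3) = true := by decide +kernel

theorem o8_0 : fastO (bX (OW 8) (mOM 8) 0 0) (nT 8) (qT 8 0) = true := by decide +kernel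

theorem o8_1 : fastO (bX (OW 8) (mOM 8) 0 1) (nT 8) (qT 8 1) = true := by decide +kernel

theorem o8_2 : fastO (bX (OW 8) (mOM 8) 0 2) (nT 8) (qT 8 2) = true := by decide +kernel

theorem o8_3 : fastO (bX (OW 8) (mOM 8) 0 3) (nT 8) (qT 8 3) = true := by decide +kernel

end Pool.Agent.Helper84.P13
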