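import Pool.Agent.Helper84.P13.Tm
import Pool.Agent.Helper14.W5.StB

/-!
# Project P13 (levels `13^n`): operator calculus on plane functions modulo 13

Obtained from `Pool/Agent/Helper84/P11/StD1.lean` by the replacements `11 -> 13`, `121 -> 169`, `10 -> 12` (roots of unity, `p - 1`), `12 -> 14` (`p + 1`, weight of `V`),
`13 -> 15` (lowering), `9 -> 11` (`p - 2`). The plane is `ZMod q × ZMod q'`, `q = 13^r`, `q' = 13^s` (`μ = 0`).
A matrix `m = (a b; 13c d)` with `a`, `d` prime to `13` (of any determinant) acts on the right by `(x, y) m = ((b + d x)/(a + 13 c x), (c + a y)/(d + 13 b y))`; `tr13 a b c d F` is the function `p ↦ F (p m)`.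
-/

set_option autoImplicit false

namespace Pool.Agent.Helper84.P13

open Pool.Agent.Helper14.CV (Homog EqC act Tl StFar StFex)
open Pool.Agent.Helper28.WK (SymP Tw evw Ok)

/-! ### Plane coordinates -/

/-- The matrix `(a, 13^μ b; 13 c, d)` has determinant one and plane coordinates `(x, y)`, that is
`b = x a` modulo `q` and `c = y d` modulo `q'`. -/
def Pl13 (μ : ℕ) {q q' : ℕ} (a b c d : ℤ) (x : ZMod q) (y : ZMod q') : Prop :=
  a * d - 13 ^ (μ + 1) * b * c = 1 ∧ (b : ZMod q) = x * a ∧ (c : ZMod q') = y * d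

/-- The entry `Y` of the standard matrix `(1, 13^μ X; 13 Y, 1 + 13^(μ+1) X Y)`, `X = x.val`, with
coordinates `(x, y)`. -/
noncomputable def rY13 (μ : ℕ) {q q' : ℕ} (x : ZMod q) (y : ZMod q') : ℤ :=
  ((y * (1 - 13 ^ (μ + 1) * ((x.val : ℕ) : ZMod q') * y)⁻¹).val : ℤ)

/-- The value of the symbol of `G` on the path from `g v` to `g u` (`u = (u1,u2)`, `v = (v1,v2)`),
where `g` is the standard matrix with plane coordinates `(x, y)`. -/
noncomputable def edge13 {R : Type} [AddCommGroup R] (μ : ℕ) {q q' : ℕ} (u1 u2 v1 v2 : ℤ)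
    (G : ℤ → ℤ → R) (x : ZMod q) (y : ZMod q') : R :=
  G (u1 + 13 ^ μ * (x.val : ℤ) * u2) (13 * rY13 μ x y * u1 + (1 + 13 ^ (μ + 1) * (x.val : ℤ) * rY13 μ x y) * u2)
  - G (v1 + 13 ^ μ * (x.val : ℤ) * v2) (13 * rY13 μ x y * v1 + (1 + 13 ^ (μ + 1) * (x.val : ℤ) * rY13 μ x y) * v2)

/-- PLA. The standard matrix has the right coordinates. (`1 - 13^(μ+1) X y` is a unit of
`ZMod (13^s)`; `Y = y (1 - 13^(μ+1) X y)⁻¹` satisfies `Y = y (1 + 13^(μ+1) X Y)`.) Model `S5PlA`. -/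
def S13PlA : Prop := ∀ (μ r s : ℕ) (x : ZMod (13 ^ r)) (y : ZMod (13 ^ s)),
  Pl13 μ 1 (x.val : ℤ) (rY13 μ x y) (1 + 13 ^ (μ + 1) * (x.val : ℤ) * rY13 μ x y) x y

/-- PLU. Two matrices with the same coordinates differ by an element
`(α β; γ δ)` with `13^(r+μ) ∣ β`, `13^(s+1) ∣ γ` on the left: `(α β; γ δ) = g' g⁻¹`,
`β = 13^μ (a b' - a' b)`, `γ = 13 (c' d - c d')`. Model `S5PlU`. -/
def S13PlU : Prop := ∀ (μ r s : ℕ) (x : ZMod (13 ^ r)) (y : ZMod (13 ^ s)) (a b c d a' b' c' d' : ℤ),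
  Pl13 μ a b c d x y → Pl13 μ a' b' c' d' x y → ∃ α β γ δ : ℤ, α * δ - β * γ = 1 ∧
    (13 : ℤ) ^ (r + μ) ∣ β ∧ (13 : ℤ) ^ (s + 1) ∣ γ ∧
    a' = α * a + β * (13 * c) ∧ 13 ^ μ * b' = α * (13 ^ μ * b) + β * d ∧
    13 * c' = γ * a + δ * (13 * c) ∧ d' = γ * (13 ^ μ * b) + δ * d

/-- EDG (from PLA, PLU). For a symbol `G` the value on the path from `g v` to `g u` depends only on the plane
coordinates of `g`: it is `edge13`. Model `S5Edg`. -/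
def S13Edg : Prop := ∀ (R : Type) (_ : AddCommGroup R) (μ r s : ℕ) (G : ℤ → ℤ → R),
  SymP 13 (r + μ) (s + 1) G → ∀ (u1 u2 v1 v2 : ℤ), (u1 ≠ 0 ∨ u2 ≠ 0) → (v1 ≠ 0 ∨ v2 ≠ 0) →
  ∀ (x : ZMod (13 ^ r)) (y : ZMod (13 ^ s)) (a b c d : ℤ), Pl13 μ a b c d x y →
  edge13 μ u1 u2 v1 v2 G x y = G (a * u1 + 13 ^ μ * b * u2) (13 * c * u1 + d * u2) -
    G (a * v1 + 13 ^ μ * b * v2) (13 * c * v1 + d * v2)


/-! ### Right translations -/

/-- Right translation by `(a b; 13c d)`. -/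
def tr13 {R : Type} (a b c d : ℤ) {q q' : ℕ} (F : ZMod q → ZMod q' → R) : ZMod q → ZMod q' → R :=
  fun x y => F (((b : ZMod q) + d * x) * ((a : ZMod q) + 13 * c * x)⁻¹)
    (((c : ZMod q') + a * y) * ((d : ZMod q') + 13 * b * y)⁻¹)

/-- TRM. Composition law, identity, homogeneity. (`(p m) m' = p (m m')`, `m m' = (a a' + 13 b c', a b' + b d'; 13 (c a' + d c'), 13 c b' + d d')`;
denominators are units of `ZMod (13^r)`.) Model: `Pool/Agent/Helper16/W5/M_Trm.lean`. -/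
def S13Trm : Prop := ∀ (R : Type) (r s : ℕ) (F : ZMod (13 ^ r) → ZMod (13 ^ s) → R),
  (∀ a b c d a' b' c' d' : ℤ, ¬ 13 ∣ a → ¬ 13 ∣ d → ¬ 13 ∣ a' → ¬ 13 ∣ d' →
    tr13 a b c d (tr13 a' b' c' d' F) =
      tr13 (a * a' + 13 * b * c') (a * b' + b * d') (c * a' + d * c') (13 * c * b' + d * d') F) ∧
  tr13 1 0 0 1 F = F ∧
  (∀ k a b c d : ℤ, ¬ 13 ∣ k → ¬ 13 ∣ a → ¬ 13 ∣ d → tr13 (k * a) (k * b) (k * c) (k * d) F = tr13 a b c d F)

/-- TRE (from EDG, PLA). Values on translated paths: for `γ = (a b; 13c d)` of determinant one the path from `γ v` to `γ u` at the point `p` is the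
path from `v` to `u` at `p γ` (if `g` has coordinates `p` then `g γ` has coordinates `p γ`). Model: `Pool/Agent/Helper69/W5/M_Tre.lean`. -/
def S13Tre : Prop := ∀ (R : Type) (_ : AddCommGroup R) (r s : ℕ) (G : ℤ → ℤ → R), SymP 13 r (s + 1) G →
  ∀ (a b c d u1 u2 v1 v2 : ℤ), a * d - 13 * b * c = 1 → (u1 ≠ 0 ∨ u2 ≠ 0) → (v1 ≠ 0 ∨ v2 ≠ 0) →
  ∀ (x : ZMod (13 ^ r)) (y : ZMod (13 ^ s)),
  edge13 0 (a * u1 + b * u2) (13 * c * u1 + d * u2) (a * v1 + b * v2) (13 * c * v1 + d * v2) G x y =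
    tr13 a b c d (edge13 0 u1 u2 v1 v2 G) x y

/-- HKB. Hecke sums for balanced levels `(r, s)` (from SPHk by `G0(p,q) = G(13^r p, q)`, which is a symbol
of level `(0, r+s)`, `G(p,q) = G0(p, 13^r q)`; `δ` becomes `(a, b/13^r; 13^r c, d)`), and `T_l` preserves
symbols (in the same way). Hypothesis: `SPHk` of `Helper14/W5/StB.lean` (proved). Model: `Pool/Agent/Helper22/W5/M_HkB.lean`. -/
def S13HkB : Prop := ∀ (R : Type) (_ : AddCommGroup R) (r s l : ℕ) (G : ℤ → ℤ → R), l.Prime →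
  l ≠ 13 → SymP 13 r s G → SymP 13 r s (Tl l (13 ^ r) G) ∧
  ∀ δ : Fin (l + 1) → Matrix (Fin 2) (Fin 2) ℤ,
  (∀ P, (δ P).det = l) → (∀ P, (13 : ℤ) ^ r ∣ δ P 0 1) → (∀ P, (13 : ℤ) ^ s ∣ δ P 1 0) →
  (∀ P P', P ≠ P' → ¬ ∀ i j, (l : ℤ) ∣ (δ P * (δ P').adjugate) i j) →
  EqC (fun p q => ∑ P, G (δ P 0 0 * p + δ P 0 1 * q) (δ P 1 0 * p + δ P 1 1 * q))
    (Tl l (13 ^ r) G)

/-- HKF (from HKB, EDG, PLA). Hecke formula on the plane for the path from `v` to `u`. `J` is a complete system of residues modulo `l`. For `g` with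
coordinates `(x,y)` use in HKB the family `δ = g_j (1 j; 0 l) g⁻¹`, `j ∈ J`, and `g_∞ (l 0; 0 1) g⁻¹`, where `g_j` is the standard matrix with coordinates
`((x-j)/l, l y/(1-7jy))` (this is `(x,y) (l -j; 0 1)`) and `g_∞` the one with coordinates `(l x, y/l)` (this is `(x,y)(1 0; 0 l)`): both
`g_j (1 j; 0 l)` and `g_∞ (l 0; 0 1)` have plane coordinates `(x, y)`, so `δ` satisfies the congruences. Then `G(δ g u) = G(g_j (1 j; 0 l) u)`. Model: `Pool/Agent/Helper60/W5/M_HkF.lean`. -/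
def S13HkF : Prop := ∀ (R : Type) (_ : AddCommGroup R) (r s l : ℕ) (G : ℤ → ℤ → R) (J : Finset ℤ),
  l.Prime → l ≠ 13 → SymP 13 r (s + 1) G → J.card = l →
  (∀ j ∈ J, ∀ j' ∈ J, (l : ℤ) ∣ j - j' → j = j') →
  ∀ (u1 u2 v1 v2 : ℤ), (u1 ≠ 0 ∨ u2 ≠ 0) → (v1 ≠ 0 ∨ v2 ≠ 0) → ∀ (x : ZMod (13 ^ r)) (y : ZMod (13 ^ s)),
  edge13 0 u1 u2 v1 v2 (Tl l (13 ^ r) G) x y =
    tr13 1 0 0 l (edge13 0 (l * u1) u2 (l * v1) v2 G) x y +
    ∑ j ∈ J, tr13 l (-j) 0 1 (edge13 0 (u1 + j * u2) (l * u2) (v1 + j * v2) (l * v2) G) x y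

/-! ### Operators on functions with values in `ZMod 13` -/

/-- Plane functions modulo 13. -/
abbrev Fn13 (q q' : ℕ) : Type := ZMod q → ZMod q' → ZMod 13

/-- The operator of `(a b; 13c d)`. -/
def op13 (a b c d : ℤ) {q q' : ℕ} : Module.End (ZMod 13) (Fn13 q q') where
  toFun F := tr13 a b c d F
  map_add' _ _ := rfl
  map_smul' _ _ := rfl

/-- The operator of a list of terms. -/
def opL (L : List Tm) {q q' : ℕ} : Module.End (ZMod 13) (Fn13 q q') :=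
  (L.map fun t => ((t.1 : ℤ) : ZMod 13) • op13 t.2.1 t.2.2.1 t.2.2.2.1 t.2.2.2.2).sum

/-- Difference in `x`. -/
def dX {q q' : ℕ} : Module.End (ZMod 13) (Fn13 q q') where
  toFun F x y := F (x + 1) y - F x y
  map_add' F G := by funext x y; simp only [Pi.add_apply]; ring
  map_smul' c F := by funext x y; simp only [Pi.smul_apply, smul_eq_mul, RingHom.id_apply]; ring

/-- Difference in `y`. -/
def dY {q q' : ℕ} : Module.End (ZMod 13) (Fn13 q q') where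
  toFun F x y := F x (y + 1) - F x y
  map_add' F G := by funext x y; simp only [Pi.add_apply]; ring
  map_smul' c F := by funext x y; simp only [Pi.smul_apply, smul_eq_mul, RingHom.id_apply]; ring

/-- `F ↦ F(x + 1, y/(1 + 13y))`. -/
def oA {q q' : ℕ} : Module.End (ZMod 13) (Fn13 q q') := op13 1 1 0 1

/-- `F ↦ F(x/(1 + 13x), y + 1)`. -/
def oB {q q' : ℕ} : Module.End (ZMod 13) (Fn13 q q') := op13 1 0 1 1

/-- `F ↦ F(14x, y/14)`. -/
def oD {q q' : ℕ} : Module.End (ZMod 13) (Fn13 q q') := op13 1 0 0 14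

/-- Twelfth roots of unity modulo `169`: `80^w` (`2^w` modulo `13`, that is `1, 2, 4, 8, 3, 6, 12, 11, 9, 5, 10, 7`). -/
def om12 : Fin 12 → ℤ := ![1, 80, -22, -70, -23, 19, -1, -80, 22, 70, 23, -19]

/-- `F ↦ F(om x, y/om)`. -/
def oW (w : Fin 12) {q q' : ℕ} : Module.End (ZMod 13) (Fn13 q q') := op13 1 0 0 (om12 w)

/-- Functions of degree at most `d` (`0` for `d < 0`). -/
def Wd13 {q q' : ℕ} (d : ℤ) : Submodule (ZMod 13) (Fn13 q q') where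
  carrier := {F | ∀ i j : ℕ, d < (i : ℤ) + j →
    ((dX ^ i * dY ^ j : Module.End (ZMod 13) (Fn13 q q')) F) = 0}
  add_mem' h h' := by intro i j hij; rw [map_add, h i j hij, h' i j hij, add_zero]
  zero_mem' := by intro i j _; exact map_zero _
  smul_mem' c F h := by intro i j hij; rw [map_smul, h i j hij, smul_zero]

/-- The operator lowers degrees by at least `k`. -/
def Lw {q q' : ℕ} (O : Module.End (ZMod 13) (Fn13 q q')) (k : ℤ) : Prop :=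
  ∀ (d : ℤ) (F : Fn13 q q'), F ∈ Wd13 d → O F ∈ Wd13 (d - k)

/-- LOW0. `Lw` is compatible with sums, products, smaller lowering; `Wd13` is increasing; `dX`, `dY`
commute and lower by `1`; every function has finite degree; the identity is `Lw 0`. Model: `Pool/Agent/Helper7/W5/M_Low0.lean`. -/
def S13Low0 : Prop := ∀ (r s : ℕ),
  (∀ (O O' : Module.End (ZMod 13) (Fn13 (13 ^ r) (13 ^ s))) (k k' : ℤ), Lw O k → Lw O' k' →
    Lw (O * O') (k + k')) ∧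
  (∀ (O O' : Module.End (ZMod 13) (Fn13 (13 ^ r) (13 ^ s))) (k : ℤ), Lw O k → Lw O' k →
    Lw (O + O') k) ∧
  (∀ (O : Module.End (ZMod 13) (Fn13 (13 ^ r) (13 ^ s))) (c : ZMod 13) (k : ℤ), Lw O k → Lw (c • O) k) ∧
  (∀ (O : Module.End (ZMod 13) (Fn13 (13 ^ r) (13 ^ s))) (k k' : ℤ), k' ≤ k → Lw O k → Lw O k') ∧
  (∀ d d' : ℤ, d ≤ d' → (Wd13 d : Submodule (ZMod 13) (Fn13 (13 ^ r) (13 ^ s))) ≤ Wd13 d') ∧
  Lw (1 : Module.End (ZMod 13) (Fn13 (13 ^ r) (13 ^ s))) 0 ∧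
  Lw (dX : Module.End (ZMod 13) (Fn13 (13 ^ r) (13 ^ s))) 1 ∧
  Lw (dY : Module.End (ZMod 13) (Fn13 (13 ^ r) (13 ^ s))) 1 ∧
  (dX * dY : Module.End (ZMod 13) (Fn13 (13 ^ r) (13 ^ s))) = dY * dX ∧
  (dX ^ (13 ^ r) : Module.End (ZMod 13) (Fn13 (13 ^ r) (13 ^ s))) = 0 ∧
  (dY ^ (13 ^ s) : Module.End (ZMod 13) (Fn13 (13 ^ r) (13 ^ s))) = 0 ∧
  (∀ F : Fn13 (13 ^ r) (13 ^ s), F ∈ Wd13 ((13 : ℤ) ^ r + 13 ^ s - 2)) ∧
  (∀ F : Fn13 (13 ^ r) (13 ^ s), F ∈ Wd13 0 → ∀ x y, F x y = F 0 0) ∧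
  (∀ F : Fn13 (13 ^ r) (13 ^ s), F ∈ Wd13 (-1) → F = 0)

/-- PRD. Product rule: degrees add. `dX (F G) = dX F * (G shifted) + F * dX G`, induction. Model: `Pool/Agent/Helper63/W5/M_Prd.lean`. -/
def S13Prd : Prop := ∀ (r s : ℕ) (d e : ℤ) (F G : Fn13 (13 ^ r) (13 ^ s)), F ∈ Wd13 d → G ∈ Wd13 e →
  (fun x y => F x y * G x y) ∈ (Wd13 (d + e) : Submodule (ZMod 13) (Fn13 (13 ^ r) (13 ^ s)))

/-- SUBA (from LOW0, PRD). Substitutions. Let `t : ZMod (13^s) → ZMod (13^s)` respect all congruences modulo `13^i`. Then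
`F(x, y + 169 t(y)) - F(x, y)` has degree at most `d - 15` if `F` has degree at most `d`. Proof. With `Δ = dY` and `u = (t y).val`,
`F(x, y + 169 t) = (1 + Δ)^(169u) F = (1 + Δ^169)^u F = ∑_m (u choose m) (Δ^(169m) F)(x, y)` (characteristic 13), `m < 13^s`. For `m ≥ 1` let `13^i` be the smallest power of thirteen bigger than `m`, so
`13^i ≤ 13m`; the function `y ↦ (u(y) choose m)` modulo 13 only depends on `u(y)` modulo `13^i` (Lucas / Vandermonde), so it has period `13^i` in `y`, so `Δ^(13^i)` kills it and its degree is at most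
`13^i - 1 ≤ 13m - 1`. By PRD the `m`-th term has degree at most `d - 169m + 13m - 1 ≤ d - 111 ≤ d - 15`. The same in the variable `x`. Model: `Pool/Agent/Helper86/W5/M_SubA.lean`. -/
def S13SubA : Prop := ∀ (r s : ℕ),
  (∀ (t : ZMod (13 ^ s) → ZMod (13 ^ s)),
    (∀ (i : ℕ) (y y' : ZMod (13 ^ s)), (13 : ZMod (13 ^ s)) ^ i ∣ y - y' → (13 : ZMod (13 ^ s)) ^ i ∣ t y - t y') →
    ∀ (d : ℤ) (F : Fn13 (13 ^ r) (13 ^ s)), F ∈ Wd13 d →
      (fun x y => F x (y + 169 * t y) - F x y) ∈ (Wd13 (d - 15) : Submodule (ZMod 13) (Fn13 (13 ^ r) (13 ^ s)))) ∧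
  (∀ (t : ZMod (13 ^ r) → ZMod (13 ^ r)),
    (∀ (i : ℕ) (x x' : ZMod (13 ^ r)), (13 : ZMod (13 ^ r)) ^ i ∣ x - x' → (13 : ZMod (13 ^ r)) ^ i ∣ t x - t x') →
    ∀ (d : ℤ) (F : Fn13 (13 ^ r) (13 ^ s)), F ∈ Wd13 d →
      (fun x y => F (x + 169 * t x) y - F x y) ∈ (Wd13 (d - 15) : Submodule (ZMod 13) (Fn13 (13 ^ r) (13 ^ s))))

/-- SUBB (from LOW0, PRD). Substitutions `F(x, y + 13 u y^e) - F(x,y)`, `e = 1, 2`, have degree at most `d - (13 - e)`. Proof: as in SUBA, `F(x, y + 13 u y^e) = ∑_m (ũ ỹ^e choose m) (Δ^(13m) F)(x,y)`, `ũ`, `ỹ` representatives in `ℕ`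
(`(1+Δ)^(13 ũ ỹ^e) = (1 + Δ¹³)^(ũ ỹ^e)`); the function `y ↦ (ũ ỹ^e choose m)` modulo 13, `m < 13^s`, is well defined on `ZMod (13^s)` (Lucas) and has degree at most `e m`, because `n ↦ (ũ n^e choose m)` on `ℕ` is a polynomial of
degree at most `e m`, so its differences of order `e m + 1` vanish. So the `m`-th term, `m ≥ 1`, has degree at most `d - 13m + em ≤ d - (13 - e)`. The same in `x`. Model: `Pool/Agent/Helper36/W5/M_SubB.lean`. -/
def S13SubB : Prop := ∀ (r s e : ℕ), (e = 1 ∨ e = 2) →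
  (∀ (u : ZMod (13 ^ s)) (d : ℤ) (F : Fn13 (13 ^ r) (13 ^ s)), F ∈ Wd13 d →
      (fun x y => F x (y + 13 * u * y ^ e) - F x y) ∈ (Wd13 (d - (13 - e)) : Submodule (ZMod 13) (Fn13 (13 ^ r) (13 ^ s)))) ∧
  (∀ (u : ZMod (13 ^ r)) (d : ℤ) (F : Fn13 (13 ^ r) (13 ^ s)), F ∈ Wd13 d →
      (fun x y => F (x + 13 * u * x ^ e) y - F x y) ∈ (Wd13 (d - (13 - e)) : Submodule (ZMod 13) (Fn13 (13 ^ r) (13 ^ s))))

/-- NFA (from LOW0, SUBA, SUBB). Elementary operators. (1) `oW w` preserves degrees: for a natural number `c`, `dX (F(c x, y)) = (((1 + dX)^c - 1) F)(c x, y)`, and `(1 + dX)^c - 1` is `dX` times something; replace `om`, `1/om` by natural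
representatives (`om12 w` modulo `13^r`, `1/om12 w` modulo `13^s`); so `dX^i dY^j (oW w F)` is the value of `((1+dX)^c - 1)^i ((1+dY)^c' - 1)^j F` at the scaled point. (2), (3) `(1+dX)^c - 1 = c dX + (terms with dX²)`, `c ≡ om`, and
`(1+dY)^c' - 1 = c' dY + ...`, `c' ≡ 1/om ≡ om¹¹` modulo `13`; so `dX (oW w F) = oW w (om dX F + ...)`, where `...` lowers by two (in (2), (3) and (5) `om12 w` is read modulo `13`). (4) A function of degree `0` is constant. (5) By the formula of (1), for `i + j = d` and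
`F` of degree at most `d`: `((1+dX)^c - 1)^i ((1+dY)^c' - 1)^j F = c^i c'^j dX^i dY^j F`, a constant function. (6) `oD`: `14x = x + 13x`, `y/14 = y + 13 (-1/14) y`: SUBB twice, lowers by `12`. (7) `oA`:
`F(x + 1, y/(1 + 13y))`. Let `φ(y) = y - 13y²`, a permutation of `ZMod (13^s)`; `y/(1 + 13y) = φ(y) + 169 y³/(1 + 13y) = v + 169 t(v)` for `v = φ(y)`, `t(v) = y³/(1 + 13y)`, `y = φ⁻¹(v)`, and `t` respects congruences
(`φ(y) - φ(y') = (y - y')(1 - 13(y + y'))`). So `F(x, y/(1+13y)) = F(x, φ(y)) + K(x, φ(y))` with `K` of degree at most `d - 15` (SUBA), and composition with `φ` changes by degree at most `-11` (SUBB, `e = 2`). So `oA - 1 - dX` lowers by `11`;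
`oB` in the same way. Model: `Pool/Agent/Helper72/W5/M_Nfa.lean`. -/
def S13Nfa : Prop := ∀ (r s : ℕ),
  (∀ w : Fin 12, Lw (oW w : Module.End (ZMod 13) (Fn13 (13 ^ r) (13 ^ s))) 0) ∧
  (∀ w : Fin 12, Lw (dX * oW w - ((om12 w : ℤ) : ZMod 13) • (oW w * dX) :
    Module.End (ZMod 13) (Fn13 (13 ^ r) (13 ^ s))) 2) ∧
  (∀ w : Fin 12, Lw (dY * oW w - ((om12 w : ℤ) : ZMod 13) ^ 11 • (oW w * dY) :
    Module.End (ZMod 13) (Fn13 (13 ^ r) (13 ^ s))) 2) ∧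
  (∀ (w : Fin 12) (F : Fn13 (13 ^ r) (13 ^ s)), F ∈ Wd13 0 → oW w F = F) ∧
  (∀ (w : Fin 12) (i j : ℕ) (F : Fn13 (13 ^ r) (13 ^ s)), F ∈ Wd13 ((i : ℤ) + j) →
    (dX ^ i * dY ^ j : Module.End (ZMod 13) (Fn13 (13 ^ r) (13 ^ s))) (oW w F) =
      ((om12 w : ℤ) : ZMod 13) ^ (i + 11 * j) • (dX ^ i * dY ^ j : Module.End (ZMod 13) (Fn13 (13 ^ r) (13 ^ s))) F) ∧
  Lw (oD - 1 : Module.End (ZMod 13) (Fn13 (13 ^ r) (13 ^ s))) 12 ∧
  Lw (oA - 1 - dX : Module.End (ZMod 13) (Fn13 (13 ^ r) (13 ^ s))) 11 ∧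
  Lw (oB - 1 - dY : Module.End (ZMod 13) (Fn13 (13 ^ r) (13 ^ s))) 11 ∧
  Lw (oA - 1 : Module.End (ZMod 13) (Fn13 (13 ^ r) (13 ^ s))) 1 ∧
  Lw (oB - 1 : Module.End (ZMod 13) (Fn13 (13 ^ r) (13 ^ s))) 1

/-- NF (from TRM, LOW0, NFA, SUBA). Normal form modulo operators which lower by `15`. Proof: with `C0 = om γ`, `D0 = om (13 γ β + 14^m)`, the product `oW w * oB^γ * oD^m * oA^β` is `op13 1 β C0 D0` (TRM:
`(1 0; 0 om)(1 0; 13γ 1)(1 0; 0 14^m)(1 β; 0 1) = (1 β; 13 C0 D0)`). Let `M = (a b; 13c d)`, `M0 = (1 β; 13 C0 D0)`, `N = M adj(M0) = (n1 n2; 13 n3 n4)`, `n1 = a D0 - 13 b C0`, `n2 = b - a β`, `n3 = c D0 - d C0`, `n4 = d - 13 c β`: then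
`169 ∣ n2`, `169 ∣ n3`, `169 ∣ n1 - n4`, and `op13 N * op13 M0 = op13 M` (`N M0 = det(M0) M`, TRM; `det M0 = om 14^m`). `(x,y) N = (x + 169 t(x), y + 169 t'(y))`: `(n2 + n4 x)/(n1 + 13 n3 x) - x = (n2 + (n4 - n1) x - 13 n3 x²)/(n1 + 13 n3 x)`,
and `t`, `t'` respect congruences. So `op13 N - 1` lowers by `15` (SUBA in `x` and in `y`), and `op13 M0` preserves degrees (NFA). Model: `Pool/Agent/Helper29/W5/M_Nf.lean`. -/
def S13Nf : Prop := ∀ (r s : ℕ) (a b c d : ℤ) (w : Fin 12) (β γ m : ℕ), ¬ 13 ∣ a → ¬ 13 ∣ d →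
  169 ∣ b - β * a → 169 ∣ c - γ * om12 w * a → 169 ∣ d - (13 * γ * β + 14 ^ m) * om12 w * a →
    Lw (op13 a b c d - oW w * oB ^ γ * oD ^ m * oA ^ β :
      Module.End (ZMod 13) (Fn13 (13 ^ r) (13 ^ s))) 15

/-- `1/a` modulo `169`. -/
def aI (t : Tm) : ℤ := (t.2.1 ^ 155) % 169

/-- The exponent of `oA`: `b/a` modulo `169`. -/
def bE (t : Tm) : ℕ := ((t.2.2.1 * aI t) % 169).toNat

/-- `det/a²` modulo `169`. -/
def lE (t : Tm) : ℤ := ((t.2.1 * t.2.2.2.2 - 13 * t.2.2.1 * t.2.2.2.1) * aI t ^ 2) % 169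

/-- The index of the root of unity (`2^w`: `1, 2, 4, 8, 3, 6, 12, 11, 9, 5, 10, 7`). -/
def wE (t : Tm) : Fin 12 :=
  if lE t % 13 = 1 then 0 else if lE t % 13 = 2 then 1 else if lE t % 13 = 4 then 2
  else if lE t % 13 = 8 then 3 else if lE t % 13 = 3 then 4 else if lE t % 13 = 6 then 5
  else if lE t % 13 = 12 then 6 else if lE t % 13 = 11 then 7 else if lE t % 13 = 9 then 8
  else if lE t % 13 = 5 then 9 else if lE t % 13 = 10 then 10 else 11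

/-- The inverses of the roots of unity modulo `169`. -/
def oi12 : Fin 12 → ℤ := ![1, 150, 23, 70, 22, 89, 168, 19, 146, 99, 147, 80]

/-- The exponent of `oD`. -/
def mE (t : Tm) : ℕ := (((lE t * oi12 (wE t)) % 169) / 13).toNat

/-- The exponent of `oB`. -/
def gE (t : Tm) : ℕ := ((t.2.2.2.1 * aI t * oi12 (wE t)) % 169).toNat

/-- The coefficient of `oW w * (oB - 1)^i * (oD - 1)^k * (oA - 1)^j` in the expansion of a list. -/
def cS (L : List Tm) (w : Fin 12) (i k j : ℕ) : ℤ :=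
  (L.map fun t : Tm => if wE t = w then
    (t.1 : ℤ) * (((gE t).choose i * (mE t).choose k * (bE t).choose j : ℕ) : ℤ) else 0).sum

/-- The monomials `(i, k, j)` of weight `i + 12k + j` at most `14`. -/
def M15 : Finset (ℕ × ℕ × ℕ) :=
  (Finset.range 15 ×ˢ Finset.range 2 ×ˢ Finset.range 15).filter fun t => t.1 + 12 * t.2.1 + t.2.2 ≤ 14

/-- EXP (from LOW0, NFA, NF). Expansion of a list of operators modulo operators which lower by `15`. Proof: every term by NF (with `w = wE t`, `β = bE t`, `γ = gE t`, `m = mE t`: for `13 ∤ a d`, `a aI ≡ 1` modulo `169` (`a^156 ≡ 1`), `b ≡ β a`,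
`lE ≡ det/a²`, `lE ≡ om12 w` modulo `13`, `om12 w * oi12 w ≡ 1` modulo `169`, so `lE * oi12 w ≡ 1 + 13m ≡ 14^m` modulo `169`, `m ≤ 12`; `c ≡ γ om a`, and `d a ≡ lE a² + 13 b c` gives `d ≡ (14^m + 13 γ β) om a`), `oB^γ = (1 + (oB - 1))^γ` etc., binomial theorem;
the products with `i + 12k + j ≥ 15` lower by `15`, and `M15` contains all `(i, k, j)` of weight at most `14`. Model: `Pool/Agent/Helper98/W5/M_Exp.lean`. -/
def S13Exp : Prop := ∀ (r s : ℕ) (L : List Tm), (∀ t ∈ L, Gd t) →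
  Lw ((opL L : Module.End (ZMod 13) (Fn13 (13 ^ r) (13 ^ s))) - ∑ w : Fin 12, ∑ t ∈ M15,
    ((cS L w t.1 t.2.1 t.2.2 : ℤ) : ZMod 13) • (oW w * (oB - 1) ^ t.1 * (oD - 1) ^ t.2.1 * (oA - 1) ^ t.2.2 :
      Module.End (ZMod 13) (Fn13 (13 ^ r) (13 ^ s)))) 15

/-- LW1 (from LOW0, NFA, NF). `op13 a b c d` with `13 ∤ a d` preserves degrees, and modulo operators which lower by `2` it is `oW w (1 + (b/a) dX + (c/(om a)) dY)`, where `d ≡ om12 w a` modulo `13`. Proof: NF with `w`, `β ≡ b/a`,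
`γ ≡ c/(om a)`, `m` as in EXP (`det/a² ≡ d/a ≡ om12 w` modulo `13`); `oB^γ = 1 + γ (oB - 1) + ...`, `oA^β = 1 + β (oA - 1) + ...` with products which lower by `2`, `oD^m - 1` lowers by `12`, `oA - 1 - dX`, `oB - 1 - dY` lower by `11`;
`1/a ≡ a¹¹` modulo `13`. Model: `Pool/Agent/Helper81/W5/M_Lw1.lean`. -/
def S13Lw1 : Prop := ∀ (r s : ℕ) (a b c d : ℤ), ¬ 13 ∣ a → ¬ 13 ∣ d →
  Lw (op13 a b c d : Module.End (ZMod 13) (Fn13 (13 ^ r) (13 ^ s))) 0 ∧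
  ∀ w : Fin 12, 13 ∣ d - om12 w * a →
    Lw (op13 a b c d - oW w : Module.End (ZMod 13) (Fn13 (13 ^ r) (13 ^ s))) 1 ∧
    Lw (op13 a b c d - oW w * (1 + ((b * a ^ 11 : ℤ) : ZMod 13) • dX +
      ((c * a ^ 11 * om12 w ^ 11 : ℤ) : ZMod 13) • dY) : Module.End (ZMod 13) (Fn13 (13 ^ r) (13 ^ s))) 2

/-- The coefficient of `dX^i dY^j` at the origin, for functions of degree at most 12. -/
def nS (L : List Tm) (i j : ℕ) : ℤ :=
  (L.map fun t : Tm => (t.1 : ℤ) * (((((t.2.2.1 * t.2.1 ^ 11) % 13).toNat).choose i *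
    (((t.2.2.2.1 * t.2.2.2.2 ^ 11) % 13).toNat).choose j : ℕ) : ℤ)).sum

/-- VAL (from LOW0). The value at the origin. For `F` of degree at most `12`: `dX^13 F = 0 = dY^13 F`, so `F` has periods `13` in both variables (`(1 + dX)^13 = 1 + dX^13`), so `(op13 a b c d F)(0,0) = F(b/a, c/d) = F(x, y)` with the natural numbers
`x = (b a¹¹) % 13`, `y = (c d¹¹) % 13`, and `F(x, y) = ∑_{i, j ≤ 12} (x choose i)(y choose j) (dX^i dY^j F)(0,0)` (`F(x, y) = ((1 + dX)^x (1 + dY)^y F)(0,0)`). Model: the first part of `Pool/Agent/Helper53/W5/M_Om.lean`. -/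
def S13Val : Prop := ∀ (r s : ℕ) (L : List Tm), (∀ t ∈ L, Gd t) → ∀ F : Fn13 (13 ^ r) (13 ^ s), F ∈ Wd13 12 →
  (opL L F) 0 0 = ∑ i ∈ Finset.range 13, ∑ j ∈ Finset.range 13, ((nS L i j : ℤ) : ZMod 13) *
    ((dX ^ i * dY ^ j : Module.End (ZMod 13) (Fn13 (13 ^ r) (13 ^ s))) F) 0 0

/-- OPM (from TRM). Products of lists, multiples, concatenation. `opL (mulL L L') = opL L * opL L'` (TRM, the terms are prime to `13`). -/
def S13Opm : Prop := ∀ (r s : ℕ),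
  (∀ L L' : List Tm, (∀ t ∈ L, Gd t) → (∀ t ∈ L', Gd t) → (∀ t ∈ mulL L L', Gd t) ∧
    (opL (mulL L L') : Module.End (ZMod 13) (Fn13 (13 ^ r) (13 ^ s))) = opL L * opL L') ∧
  (∀ (n : ℤ) (L : List Tm), (opL (sclL n L) : Module.End (ZMod 13) (Fn13 (13 ^ r) (13 ^ s))) = ((n : ℤ) : ZMod 13) • opL L) ∧
  (∀ L L' : List Tm, (opL (L ++ L') : Module.End (ZMod 13) (Fn13 (13 ^ r) (13 ^ s))) = opL L + opL L')

/-- The product of binomial coefficients `(x choose i)(y choose j)` modulo 13. -/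
def bb13 (i j : ℕ) {q q' : ℕ} : Fn13 q q' := fun x y => ((x.val.choose i * y.val.choose j : ℕ) : ZMod 13)

/-- BB. Binomial basis: for `i < 13^r`, `j < 13^s`: `bb13 i j ∈ Wd13 (i+j)`, `dX (bb13 (i+1) j) = bb13 i j` (`i + 1 < 13^r`),
`dX (bb13 0 j) = 0`, the same for `dY`; and the Newton expansion. (Pascal; wrap around `x = 13^r - 1`:
`(13^r choose i) = 0` modulo 13 for `0 < i < 13^r`.) Model: `Pool/Agent/Helper32/W5/M_Bb.lean`. -/
def S13Bb : Prop := ∀ (r s : ℕ),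
  (∀ i j : ℕ, i < 13 ^ r → j < 13 ^ s →
    (bb13 i j : Fn13 (13 ^ r) (13 ^ s)) ∈ Wd13 ((i : ℤ) + j)) ∧
  (∀ i j : ℕ, i + 1 < 13 ^ r → j < 13 ^ s → dX (bb13 (i + 1) j : Fn13 (13 ^ r) (13 ^ s)) = bb13 i j) ∧
  (∀ i j : ℕ, i < 13 ^ r → j + 1 < 13 ^ s → dY (bb13 i (j + 1) : Fn13 (13 ^ r) (13 ^ s)) = bb13 i j) ∧
  (∀ j : ℕ, j < 13 ^ s → dX (bb13 0 j : Fn13 (13 ^ r) (13 ^ s)) = 0) ∧
  (∀ i : ℕ, i < 13 ^ r → dY (bb13 i 0 : Fn13 (13 ^ r) (13 ^ s)) = 0) ∧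
  (∀ F : Fn13 (13 ^ r) (13 ^ s), F = ∑ i ∈ Finset.range (13 ^ r), ∑ j ∈ Finset.range (13 ^ s),
    (((dX ^ i * dY ^ j : Module.End (ZMod 13) (Fn13 (13 ^ r) (13 ^ s))) F) 0 0) • bb13 i j)

/-- The complex potential of level `(0, r+s)` of an integral one of level `(r, s)`. -/
noncomputable def ub (r : ℕ) (G : ℤ → ℤ → ℤ) : ℤ → ℤ → ℂ := fun p q => ((G (13 ^ r * p) q : ℤ) : ℂ)

/-- UNB. Back to `Γ₀(13^n)` and to complex values: if `G` is an integral symbol of level `(r, s)` then `ub r G` is a symbol of level `(0, r+s)` with `evw 1 ls (ub r G) = evw (13^r) ls G`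
(`Tl l 1 (ub r G) = ub r (Tl l (13^r) G)`, for all `l` and `G`; `Homog` is preserved by `Tl l m`, `l > 0`). Model: `Pool/Agent/Helper62/W5/M_Unb.lean`. -/
def S13Unb : Prop := ∀ (r : ℕ) (G : ℤ → ℤ → ℤ),
  (∀ l : ℕ, Tl l 1 (ub r G) = ub r (Tl l (13 ^ r) G)) ∧
  ∀ s : ℕ, SymP 13 r s G → SymP 13 0 (r + s) (ub r G) ∧
    ∀ ls : List ℕ, Ok 13 ls → evw 1 ls (ub r G) = ((evw (13 ^ r) ls G : ℤ) : ℂ)

end Pool.Agent.Helper84.P13
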