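import Mathlib

/-!
# Project P13 (levels `13^n`): lists of terms

A matrix `(a b; 13c d)` with `a`, `d` prime to `13` is written `(a, b, c, d)`.
-/

set_option autoImplicit false

namespace Pool.Agent.Helper84.P13

/-- A term `(k, a, b, c, d)` stands for `k` times the operator of `(a b; 13c d)`. -/
abbrev Tm : Type := ℤ × ℤ × ℤ × ℤ × ℤ

/-- Product of two terms. -/
def mulT (t t' : Tm) : Tm :=
  (t.1 * t'.1, t.2.1 * t'.2.1 + 13 * t.2.2.1 * t'.2.2.2.1, t.2.1 * t'.2.2.1 + t.2.2.1 * t'.2.2.2.2,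
    t.2.2.2.1 * t'.2.1 + t.2.2.2.2 * t'.2.2.2.1, 13 * t.2.2.2.1 * t'.2.2.1 + t.2.2.2.2 * t'.2.2.2.2)

/-- Product of two lists. -/
def mulL (L L' : List Tm) : List Tm := L.flatMap fun t => L'.map fun t' => mulT t t'

/-- The list multiplied by an integer. -/
def sclL (n : ℤ) (L : List Tm) : List Tm := L.map fun t => (n * t.1, t.2)

/-- The term has `a`, `d` prime to `13`. -/
abbrev Gd (t : Tm) : Prop := t.2.1 % 13 ≠ 0 ∧ t.2.2.2.2 % 13 ≠ 0

end Pool.Agent.Helper84.P13
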